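import Mathlib

/-!
Boundary integrals of rectangles, and the dyadic tree lemma.
-/

set_option autoImplicit false

namespace Pool.Agent.N481.PC

open Complex Set MeasureTheory

/-- the integral over the boundary of the rectangle `[x0, x1] × [y0, y1]` -/
noncomputable def bi (h : ℂ → ℂ) (x0 x1 y0 y1 : ℝ) : ℂ :=
  (∫ x : ℝ in x0..x1, h (x + y0 * I)) - (∫ x : ℝ in x0..x1, h (x + y1 * I)) +
    I • (∫ y : ℝ in y0..y1, h (x1 + y * I)) - I • ∫ y : ℝ in y0..y1, h (x0 + y * I)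

/-- the closed rectangle -/
def rc (x0 x1 y0 y1 : ℝ) : Set ℂ := {z | (x0 ≤ z.re ∧ z.re ≤ x1) ∧ (y0 ≤ z.im ∧ z.im ≤ y1)}

theorem mem_rc {x0 x1 y0 y1 x y : ℝ} : ((x : ℂ) + y * I) ∈ rc x0 x1 y0 y1 ↔
    (x0 ≤ x ∧ x ≤ x1) ∧ (y0 ≤ y ∧ y ≤ y1) := by
  simp [rc]

theorem ii_h {h : ℂ → ℂ} {x0 x1 y0 y1 : ℝ} (hc : ContinuousOn h (rc x0 x1 y0 y1)) {a b y : ℝ}
    (ha : x0 ≤ a) (hab : a ≤ b) (hb : b ≤ x1) (hy : y0 ≤ y) (hy' : y ≤ y1) :
    IntervalIntegrable (fun x : ℝ => h (x + y * I)) volume a b := by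
  refine ContinuousOn.intervalIntegrable (hc.comp (by fun_prop) fun x hx => ?_)
  rw [uIcc_of_le hab] at hx
  rw [mem_rc]
  exact ⟨⟨ha.trans hx.1, hx.2.trans hb⟩, hy, hy'⟩

theorem ii_v {h : ℂ → ℂ} {x0 x1 y0 y1 : ℝ} (hc : ContinuousOn h (rc x0 x1 y0 y1)) {a b x : ℝ}
    (ha : y0 ≤ a) (hab : a ≤ b) (hb : b ≤ y1) (hx : x0 ≤ x) (hx' : x ≤ x1) :
    IntervalIntegrable (fun y : ℝ => h (x + y * I)) volume a b := by
  refine ContinuousOn.intervalIntegrable (hc.comp (by fun_prop) fun y hy => ?_)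
  rw [uIcc_of_le hab] at hy
  rw [mem_rc]
  exact ⟨⟨hx, hx'⟩, ha.trans hy.1, hy.2.trans hb⟩

theorem bi_add_x {h : ℂ → ℂ} {x0 x1 x2 y0 y1 : ℝ} (hc : ContinuousOn h (rc x0 x2 y0 y1))
    (h1 : x0 ≤ x1) (h2 : x1 ≤ x2) (hy : y0 ≤ y1) :
    bi h x0 x2 y0 y1 = bi h x0 x1 y0 y1 + bi h x1 x2 y0 y1 := by
  have e1 := intervalIntegral.integral_add_adjacent_intervals
    (ii_h hc le_rfl h1 h2 le_rfl hy) (ii_h hc h1 h2 le_rfl le_rfl hy)
  have e2 := intervalIntegral.integral_add_adjacent_intervals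
    (ii_h hc le_rfl h1 h2 hy le_rfl) (ii_h hc h1 h2 le_rfl hy le_rfl)
  unfold bi
  rw [← e1, ← e2]
  ring

theorem bi_add_y {h : ℂ → ℂ} {x0 x1 y0 y1 y2 : ℝ} (hc : ContinuousOn h (rc x0 x1 y0 y2))
    (h1 : y0 ≤ y1) (h2 : y1 ≤ y2) (hx : x0 ≤ x1) :
    bi h x0 x1 y0 y2 = bi h x0 x1 y0 y1 + bi h x0 x1 y1 y2 := by
  have e1 := intervalIntegral.integral_add_adjacent_intervals
    (ii_v hc le_rfl h1 h2 le_rfl hx) (ii_v hc h1 h2 le_rfl le_rfl hx)
  have e2 := intervalIntegral.integral_add_adjacent_intervals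
    (ii_v hc le_rfl h1 h2 hx le_rfl) (ii_v hc h1 h2 le_rfl hx le_rfl)
  unfold bi
  rw [← e1, ← e2]
  simp only [smul_eq_mul]
  ring

theorem rc_mono {x0 x1 y0 y1 a b c d : ℝ} (ha : x0 ≤ a) (hb : b ≤ x1) (hc : y0 ≤ c) (hd : d ≤ y1) :
    rc a b c d ⊆ rc x0 x1 y0 y1 := fun _ hz =>
  ⟨⟨ha.trans hz.1.1, hz.1.2.trans hb⟩, hc.trans hz.2.1, hz.2.2.trans hd⟩

theorem bi_four {h : ℂ → ℂ} {x0 x1 x2 y0 y1 y2 : ℝ} (hc : ContinuousOn h (rc x0 x2 y0 y2))
    (hx1 : x0 ≤ x1) (hx2 : x1 ≤ x2) (hy1 : y0 ≤ y1) (hy2 : y1 ≤ y2) :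
    bi h x0 x2 y0 y2 = bi h x0 x1 y0 y1 + bi h x1 x2 y0 y1 + bi h x0 x1 y1 y2 + bi h x1 x2 y1 y2 := by
  rw [bi_add_y hc hy1 hy2 (hx1.trans hx2),
    bi_add_x (hc.mono (rc_mono le_rfl le_rfl le_rfl hy2)) hx1 hx2 hy1,
    bi_add_x (hc.mono (rc_mono le_rfl le_rfl hy1 le_rfl)) hx1 hx2 hy2]
  ring

theorem bi_zero {h : ℂ → ℂ} {x0 x1 y0 y1 : ℝ} (hx : x0 ≤ x1) (hy : y0 ≤ y1)
    (hd : DifferentiableOn ℂ h (rc x0 x1 y0 y1)) : bi h x0 x1 y0 y1 = 0 := by
  have := Complex.integral_boundary_rect_eq_zero_of_differentiableOn h ⟨x0, y0⟩ ⟨x1, y1⟩ (by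
    refine hd.mono fun z hz => ?_
    simp only [uIcc_of_le hx, uIcc_of_le hy, mem_reProdIm, mem_Icc] at hz
    exact hz)
  exact this

theorem bi_le {h : ℂ → ℂ} {x0 x1 y0 y1 b : ℝ} (hx : x0 ≤ x1) (hy : y0 ≤ y1)
    (hc : ContinuousOn h (rc x0 x1 y0 y1))
    (hb1 : ∀ x : ℝ, x0 ≤ x → x ≤ x1 → ‖h (x + y0 * I) - h (x + y1 * I)‖ ≤ b)
    (hb2 : ∀ y : ℝ, y0 ≤ y → y ≤ y1 → ‖h (x1 + y * I) - h (x0 + y * I)‖ ≤ b) :
    ‖bi h x0 x1 y0 y1‖ ≤ ((x1 - x0) + (y1 - y0)) * b := by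
  have e1 := intervalIntegral.integral_sub (ii_h hc le_rfl hx le_rfl le_rfl hy) (ii_h hc le_rfl hx le_rfl hy le_rfl)
  have e2 := intervalIntegral.integral_sub (ii_v hc le_rfl hy le_rfl hx le_rfl) (ii_v hc le_rfl hy le_rfl le_rfl hx)
  have e3 : bi h x0 x1 y0 y1 = (∫ x : ℝ in x0..x1, (h (x + y0 * I) - h (x + y1 * I))) +
      I • ∫ y : ℝ in y0..y1, (h (x1 + y * I) - h (x0 + y * I)) := by
    rw [e1, e2]
    unfold bi
    simp only [smul_eq_mul]
    ring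
  have n1 : ‖∫ x : ℝ in x0..x1, (h (x + y0 * I) - h (x + y1 * I))‖ ≤ b * |x1 - x0| := by
    refine intervalIntegral.norm_integral_le_of_norm_le_const fun x hx' => ?_
    rw [uIoc_of_le hx] at hx'
    exact hb1 x hx'.1.le hx'.2
  have n2 : ‖∫ y : ℝ in y0..y1, (h (x1 + y * I) - h (x0 + y * I))‖ ≤ b * |y1 - y0| := by
    refine intervalIntegral.norm_integral_le_of_norm_le_const fun y hy' => ?_
    rw [uIoc_of_le hy] at hy'
    exact hb2 y hy'.1.le hy'.2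
  rw [abs_of_nonneg (by linarith)] at n1 n2
  rw [e3]
  refine (norm_add_le _ _).trans ?_
  rw [norm_smul, Complex.norm_I, one_mul]
  linarith

theorem bi_swap_x (h : ℂ → ℂ) (x0 x1 y0 y1 : ℝ) : bi h x1 x0 y0 y1 = -bi h x0 x1 y0 y1 := by
  unfold bi
  rw [intervalIntegral.integral_symm x0 x1, intervalIntegral.integral_symm x0 x1]
  simp only [smul_eq_mul]
  ring

theorem bi_swap_y (h : ℂ → ℂ) (x0 x1 y0 y1 : ℝ) : bi h x0 x1 y1 y0 = -bi h x0 x1 y0 y1 := by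
  unfold bi
  rw [intervalIntegral.integral_symm y0 y1, intervalIntegral.integral_symm y0 y1]
  simp only [smul_eq_mul]
  ring

theorem bi_deg_x (h : ℂ → ℂ) (x0 y0 y1 : ℝ) : bi h x0 x0 y0 y1 = 0 := by
  unfold bi
  simp

theorem bi_deg_y (h : ℂ → ℂ) (x0 x1 y0 : ℝ) : bi h x0 x1 y0 y0 = 0 := by
  unfold bi
  simp

/-- Morera's theorem with the boundaries of nondegenerate rectangles in the usual position -/
theorem morera {h : ℂ → ℂ} {U : Set ℂ} (hU : IsOpen U) (hc : ContinuousOn h U)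
    (H : ∀ x0 x1 y0 y1 : ℝ, x0 < x1 → y0 < y1 → rc x0 x1 y0 y1 ⊆ U → bi h x0 x1 y0 y1 = 0) :
    DifferentiableOn ℂ h U := by
  refine (Complex.isConservativeOn_and_continuousOn_iff_isDifferentiableOn hU).1 ⟨fun z w hzw => ?_, hc⟩
  rw [← add_eq_zero_iff_eq_neg, Complex.wedgeIntegral_add_wedgeIntegral_eq]
  have key : ∀ x0 x1 y0 y1 : ℝ, uIcc x0 x1 ×ℂ uIcc y0 y1 ⊆ U → bi h x0 x1 y0 y1 = 0 := by
    intro x0 x1 y0 y1 hs
    rcases lt_trichotomy x0 x1 with hx | hx | hx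
    · rcases lt_trichotomy y0 y1 with hy | hy | hy
      · refine H x0 x1 y0 y1 hx hy fun v hv => hs ?_
        rw [uIcc_of_le hx.le, uIcc_of_le hy.le]
        exact hv
      · rw [hy]; exact bi_deg_y _ _ _ _
      · rw [bi_swap_y, neg_eq_zero]
        refine H x0 x1 y1 y0 hx hy fun v hv => hs ?_
        rw [uIcc_of_le hx.le, uIcc_of_ge hy.le]
        exact hv
    · rw [hx]; exact bi_deg_x _ _ _ _
    · rcases lt_trichotomy y0 y1 with hy | hy | hy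
      · rw [bi_swap_x, neg_eq_zero]
        refine H x1 x0 y0 y1 hx hy fun v hv => hs ?_
        rw [uIcc_of_ge hx.le, uIcc_of_le hy.le]
        exact hv
      · rw [hy]; exact bi_deg_y _ _ _ _
      · rw [bi_swap_x, bi_swap_y, neg_neg]
        refine H x1 x0 y1 y0 hx hy fun v hv => hs ?_
        rw [uIcc_of_ge hx.le, uIcc_of_ge hy.le]
        exact hv
  exact key z.re w.re z.im w.im hzw

/-! ### The tree lemma -/

/-- `j = (k, p', q')` is a descendant of `(n, p, q)` -/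
def desc (n p q : ℕ) (j : ℕ × ℕ × ℕ) : Prop :=
  n ≤ j.1 ∧ j.2.1 / 2 ^ (j.1 - n) = p ∧ j.2.2 / 2 ^ (j.1 - n) = q

instance (n p q : ℕ) (j : ℕ × ℕ × ℕ) : Decidable (desc n p q j) := by unfold desc; infer_instance

theorem desc_self (n p q : ℕ) : desc n p q (n, p, q) := by
  simp [desc]

theorem desc_child {n p q a b : ℕ} (ha : a < 2) (hb : b < 2) {j : ℕ × ℕ × ℕ}
    (h : desc (n + 1) (2 * p + a) (2 * q + b) j) : desc n p q j := by
  obtain ⟨h1, h2, h3⟩ := h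
  have e : j.1 - n = (j.1 - (n + 1)) + 1 := by omega
  refine ⟨by omega, ?_, ?_⟩
  · rw [e, pow_succ, ← Nat.div_div_eq_div_mul, h2]; omega
  · rw [e, pow_succ, ← Nat.div_div_eq_div_mul, h3]; omega

/-- the weight of the descendants -/
noncomputable def wt (J : Finset (ℕ × ℕ × ℕ)) (c : ℕ → ℝ) (n p q : ℕ) : ℝ :=
  ∑ j ∈ J, if desc n p q j then c j.1 else 0

theorem wt_children (J : Finset (ℕ × ℕ × ℕ)) {c : ℕ → ℝ} (hc : ∀ n, 0 ≤ c n) (n p q : ℕ) :
    wt J c (n + 1) (2 * p) (2 * q) + wt J c (n + 1) (2 * p + 1) (2 * q) +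
      wt J c (n + 1) (2 * p) (2 * q + 1) + wt J c (n + 1) (2 * p + 1) (2 * q + 1) ≤ wt J c n p q := by
  unfold wt
  rw [← Finset.sum_add_distrib, ← Finset.sum_add_distrib, ← Finset.sum_add_distrib]
  refine Finset.sum_le_sum fun j _ => ?_
  have h00 : desc (n + 1) (2 * p) (2 * q) j → desc n p q j := fun h => desc_child (a := 0) (b := 0) (by norm_num) (by norm_num) h
  have h10 : desc (n + 1) (2 * p + 1) (2 * q) j → desc n p q j := fun h => desc_child (a := 1) (b := 0) (by norm_num) (by norm_num) h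
  have h01 : desc (n + 1) (2 * p) (2 * q + 1) j → desc n p q j := fun h => desc_child (a := 0) (b := 1) (by norm_num) (by norm_num) h
  have h11 : desc (n + 1) (2 * p + 1) (2 * q + 1) j → desc n p q j := fun h => desc_child (a := 1) (b := 1) (by norm_num) (by norm_num) h
  have d1 : desc (n + 1) (2 * p) (2 * q) j → desc (n + 1) (2 * p + 1) (2 * q) j → False := fun h h' => by
    have := h.2.1.symm.trans h'.2.1; omega
  have d2 : desc (n + 1) (2 * p) (2 * q) j → desc (n + 1) (2 * p) (2 * q + 1) j → False := fun h h' => by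
    have := h.2.2.symm.trans h'.2.2; omega
  have d3 : desc (n + 1) (2 * p) (2 * q) j → desc (n + 1) (2 * p + 1) (2 * q + 1) j → False := fun h h' => by
    have := h.2.1.symm.trans h'.2.1; omega
  have d4 : desc (n + 1) (2 * p + 1) (2 * q) j → desc (n + 1) (2 * p) (2 * q + 1) j → False := fun h h' => by
    have := h.2.1.symm.trans h'.2.1; omega
  have d5 : desc (n + 1) (2 * p + 1) (2 * q) j → desc (n + 1) (2 * p + 1) (2 * q + 1) j → False := fun h h' => by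
    have := h.2.2.symm.trans h'.2.2; omega
  have d6 : desc (n + 1) (2 * p) (2 * q + 1) j → desc (n + 1) (2 * p + 1) (2 * q + 1) j → False := fun h h' => by
    have := h.2.1.symm.trans h'.2.1; omega
  have hcj := hc j.1
  by_cases hp : desc n p q j
  · rw [if_pos hp]
    by_cases e1 : desc (n + 1) (2 * p) (2 * q) j
    · rw [if_pos e1, if_neg (d1 e1), if_neg (d2 e1), if_neg (d3 e1)]; linarith
    · rw [if_neg e1]
      by_cases e2 : desc (n + 1) (2 * p + 1) (2 * q) j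
      · rw [if_pos e2, if_neg (d4 e2), if_neg (d5 e2)]; linarith
      · rw [if_neg e2]
        by_cases e3 : desc (n + 1) (2 * p) (2 * q + 1) j
        · rw [if_pos e3, if_neg (d6 e3)]; linarith
        · rw [if_neg e3]
          by_cases e4 : desc (n + 1) (2 * p + 1) (2 * q + 1) j
          · rw [if_pos e4]; linarith
          · rw [if_neg e4]; linarith
  · rw [if_neg (fun h => hp (h00 h)), if_neg (fun h => hp (h10 h)), if_neg (fun h => hp (h01 h)),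
      if_neg (fun h => hp (h11 h)), if_neg hp]
    norm_num

theorem wt_nonneg (J : Finset (ℕ × ℕ × ℕ)) {c : ℕ → ℝ} (hc : ∀ n, 0 ≤ c n) (n p q : ℕ) :
    0 ≤ wt J c n p q := Finset.sum_nonneg fun j _ => by
  split_ifs
  · exact hc _
  · exact le_rfl

theorem wt_le (J : Finset (ℕ × ℕ × ℕ)) {c : ℕ → ℝ} (hc : ∀ n, 0 ≤ c n) (n p q : ℕ) :
    wt J c n p q ≤ ∑ j ∈ J, c j.1 := Finset.sum_le_sum fun j _ => by
  split_ifs
  · exact le_rfl
  · exact hc _

theorem tree {V : ℕ → ℕ → ℕ → ℂ} {c : ℕ → ℝ} {cell : ℕ → ℕ → ℕ → Set ℂ} {K : Set ℂ}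
    (hc : ∀ n, 0 ≤ c n)
    (hV : ∀ n p q, p < 2 ^ n → q < 2 ^ n → V n p q = V (n + 1) (2 * p) (2 * q) + V (n + 1) (2 * p + 1) (2 * q) +
      V (n + 1) (2 * p) (2 * q + 1) + V (n + 1) (2 * p + 1) (2 * q + 1))
    (hV0 : ∀ n p q, p < 2 ^ n → q < 2 ^ n → (∀ x ∈ K, x ∉ cell n p q) → V n p q = 0)
    (hcell : ∀ n p q, ∀ a < 2, ∀ b < 2, cell (n + 1) (2 * p + a) (2 * q + b) ⊆ cell n p q)
    (J : Finset (ℕ × ℕ × ℕ))
    (hVc : ∀ n p q, (n, p, q) ∈ J → p < 2 ^ n → q < 2 ^ n → ‖V n p q‖ ≤ c n)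
    (N : ℕ) (hN : ∀ j ∈ J, j.1 < N) :
    ∀ m n p q : ℕ, N ≤ n + m → p < 2 ^ n → q < 2 ^ n →
      (∀ x ∈ K, x ∈ cell n p q → ∃ k, n ≤ k ∧ (∃ p' q', p' < 2 ^ k ∧ q' < 2 ^ k ∧ x ∈ cell k p' q') ∧
        ∀ p' q', p' < 2 ^ k → q' < 2 ^ k → x ∈ cell k p' q' → (k, p', q') ∈ J) →
      ‖V n p q‖ ≤ wt J c n p q := by
  intro m
  induction m with
  | zero =>
    intro n p q hn hp hq hx
    rw [hV0 n p q hp hq fun x hxK hxc => ?_, norm_zero]
    · exact wt_nonneg J hc _ _ _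
    · obtain ⟨k, hk, ⟨p', q', hp', hq', hx'⟩, hJ⟩ := hx x hxK hxc
      have h9 : k < N := hN _ (hJ p' q' hp' hq' hx')
      omega
  | succ m ih =>
    intro n p q hn hp hq hx
    by_cases hJn : (n, p, q) ∈ J
    · refine (hVc n p q hJn hp hq).trans ?_
      unfold wt
      have := Finset.single_le_sum (f := fun j : ℕ × ℕ × ℕ => if desc n p q j then c j.1 else 0)
        (fun j _ => by
          split_ifs
          · exact hc _
          · exact le_rfl) hJn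
      simp only [desc_self, if_true] at this
      exact this
    · have hx' : ∀ x ∈ K, x ∈ cell n p q → ∃ k, n + 1 ≤ k ∧
          (∃ p' q', p' < 2 ^ k ∧ q' < 2 ^ k ∧ x ∈ cell k p' q') ∧
          ∀ p' q', p' < 2 ^ k → q' < 2 ^ k → x ∈ cell k p' q' → (k, p', q') ∈ J := by
        intro x hxK hxc
        obtain ⟨k, hk, h1, h2⟩ := hx x hxK hxc
        refine ⟨k, ?_, h1, h2⟩
        rcases hk.lt_or_eq with h | h
        · omega
        · subst h
          exact absurd (h2 p q hp hq hxc) hJn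
      have child : ∀ a < 2, ∀ b < 2, ‖V (n + 1) (2 * p + a) (2 * q + b)‖ ≤
          wt J c (n + 1) (2 * p + a) (2 * q + b) := by
        intro a ha b hb
        have e2 : 2 ^ (n + 1) = 2 * 2 ^ n := by ring
        refine ih (n + 1) _ _ (by omega) (by omega) (by omega) fun x hxK hxc => ?_
        exact hx' x hxK (hcell n p q a ha b hb hxc)
      have c00 := child 0 (by norm_num) 0 (by norm_num)
      have c10 := child 1 (by norm_num) 0 (by norm_num)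
      have c01 := child 0 (by norm_num) 1 (by norm_num)
      have c11 := child 1 (by norm_num) 1 (by norm_num)
      simp only [add_zero] at c00 c10 c01 c11
      rw [hV n p q hp hq]
      refine le_trans ?_ (wt_children J hc n p q)
      refine (norm_add_le _ _).trans (add_le_add ((norm_add_le _ _).trans (add_le_add ((norm_add_le _ _).trans
        (add_le_add c00 c10)) c01)) c11)

end Pool.Agent.N481.PC
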