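import Pool.Agent.N481.PC.Pot

/-!
The Cauchy transform of a measure with growth `ph`: modulus of continuity, behaviour at infinity, differentiability off
the support.
-/

set_option autoImplicit false

namespace Pool.Agent.N481.PC

open Set MeasureTheory Filter Topology
open scoped ENNReal

variable {Λ : ℝ → ℝ} {ρ : ℝ} {X : Type*} [TopologicalSpace X] [MeasurableSpace X] [BorelSpace X] {m : Measure X}

/-- growth of the image of a measure -/
def Gr (m : Measure X) (f : X → ℂ) (Λ : ℝ → ℝ) (C R : ℝ) : Prop :=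
  ∀ (z : ℂ) (r : ℝ), 0 < r → r ≤ R → m {s | dist (f s) z ≤ r} ≤ ENNReal.ofReal (C * ph Λ r)

/-- the Cauchy transform -/
noncomputable def ct (m : Measure X) (f : X → ℂ) (w : ℂ) : ℂ := ∫ s, (w - f s)⁻¹ ∂m

theorem enorm_inv_sub (w v : ℂ) : ‖(w - v)⁻¹‖ₑ = ENNReal.ofReal (1 / dist v w) := by
  rw [← ofReal_norm, norm_inv, one_div, dist_comm, dist_eq_norm]

theorem ct_fin (hΛ : Slow Λ ρ) {C R : ℝ} (hC : 0 ≤ C) (hR : 0 < R) (hRρ : R ≤ ρ) {f : X → ℂ} (hf : Continuous f)
    (hg : Gr m f Λ C R) (w : ℂ) :
    ∫⁻ s, ‖(w - f s)⁻¹‖ₑ ∂m ≤ ENNReal.ofReal (6 * C * (ph Λ R / R)) + ENNReal.ofReal (1 / R) * m univ := by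
  have hd : Measurable fun s => dist (f s) w := (hf.dist continuous_const).measurable
  have hms : MeasurableSet {s | dist (f s) w ≤ R} := measurableSet_le hd measurable_const
  have h1 := near (m := m) hΛ hC hd (fun _ => dist_nonneg) hR hRρ (fun r hr hrR => hg w r hr hrR)
  rw [← lintegral_indicator hms] at h1
  refine le_trans ?_ (add_le_add h1 (le_of_eq (lintegral_const (μ := m) (ENNReal.ofReal (1 / R)))))
  rw [← lintegral_add_right _ measurable_const]
  refine lintegral_mono fun s => ?_
  rw [enorm_inv_sub]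
  by_cases hs : dist (f s) w ≤ R
  · rw [indicator_of_mem (by exact hs)]
    exact le_add_right le_rfl
  · refine le_add_left (ENNReal.ofReal_le_ofReal ?_)
    exact one_div_le_one_div_of_le hR (not_le.1 hs).le

theorem ct_integrable [IsFiniteMeasure m] (hΛ : Slow Λ ρ) {C R : ℝ} (hC : 0 ≤ C) (hR : 0 < R) (hRρ : R ≤ ρ)
    {f : X → ℂ} (hf : Continuous f) (hg : Gr m f Λ C R) (w : ℂ) : Integrable (fun s => (w - f s)⁻¹) m := by
  refine ⟨((continuous_const.sub hf).measurable.inv).aestronglyMeasurable, ?_⟩
  refine (ct_fin hΛ hC hR hRρ hf hg w).trans_lt ?_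
  exact ENNReal.add_lt_top.2 ⟨ENNReal.ofReal_lt_top, ENNReal.mul_lt_top ENNReal.ofReal_lt_top (measure_lt_top _ _)⟩

theorem ct_diff [IsFiniteMeasure m] (hΛ : Slow Λ ρ) {C R : ℝ} (hC : 0 ≤ C) (hR : 0 < R) (hRρ : R ≤ ρ)
    {f : X → ℂ} (hf : Continuous f) (hg : Gr m f Λ C R) {z w : ℂ} (hzw : 0 < dist z w) (hr4 : 4 * dist z w ≤ R) :
    ‖ct m f z - ct m f w‖ ≤ 92 * C * om Λ (dist z w) + 2 * dist z w * (m univ).toReal / R ^ 2 := by
  obtain ⟨r, hr⟩ : ∃ r, r = dist z w := ⟨_, rfl⟩
  rw [← hr] at hzw hr4 ⊢
  have hom := om_pos hΛ hzw (by linarith : r ≤ ρ)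
  have hdz : Measurable fun s => dist (f s) z := (hf.dist continuous_const).measurable
  have hdw : Measurable fun s => dist (f s) w := (hf.dist continuous_const).measurable
  have hm1 : MeasurableSet {s | dist (f s) z ≤ 2 * r} := measurableSet_le hdz measurable_const
  have hm2 : MeasurableSet {s | dist (f s) w ≤ 4 * r} := measurableSet_le hdw measurable_const
  have hm3 : MeasurableSet {s | 2 * r < dist (f s) z ∧ dist (f s) z ≤ R} :=
    (measurableSet_lt measurable_const hdz).inter (measurableSet_le hdz measurable_const)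
  have ph2 : ph Λ (2 * r) ≤ 4 * ph Λ r := ph_two hΛ hzw (by linarith)
  have ph4 : ph Λ (4 * r) ≤ 16 * ph Λ r := by
    have := ph_two hΛ (show 0 < 2 * r by linarith) (by linarith)
    rw [show 2 * (2 * r) = 4 * r by ring] at this
    linarith
  have eom := om_eq (Λ := Λ) hzw
  have h1 := near (m := m) (R := 2 * r) hΛ hC hdz (fun _ => dist_nonneg) (by linarith) (by linarith)
    (fun s hs hsR => hg z s hs (by linarith))
  have h2 := near (m := m) (R := 4 * r) hΛ hC hdw (fun _ => dist_nonneg) (by linarith) (by linarith)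
    (fun s hs hsR => hg w s hs (by linarith))
  have h3 := far (m := m) (r := 2 * r) (R := R) hΛ hC hdz (by linarith) (by linarith) hRρ
    (fun s hs hsR => hg z s hs (by linarith))
  have b1 : 6 * C * (ph Λ (2 * r) / (2 * r)) ≤ 12 * C * om Λ r := by
    rw [eom]
    calc 6 * C * (ph Λ (2 * r) / (2 * r)) ≤ 6 * C * (4 * ph Λ r / (2 * r)) := by gcongr
      _ = 12 * C * (ph Λ r / r) := by field_simp; ring
  have b2 : 6 * C * (ph Λ (4 * r) / (4 * r)) ≤ 24 * C * om Λ r := by
    rw [eom]
    calc 6 * C * (ph Λ (4 * r) / (4 * r)) ≤ 6 * C * (16 * ph Λ r / (4 * r)) := by gcongr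
      _ = 24 * C * (ph Λ r / r) := by field_simp; ring
  have b3 : 2 * r * (28 * C * (ph Λ (2 * r) / (2 * r) ^ 2)) ≤ 56 * C * om Λ r := by
    rw [eom]
    calc 2 * r * (28 * C * (ph Λ (2 * r) / (2 * r) ^ 2)) ≤ 2 * r * (28 * C * (4 * ph Λ r / (2 * r) ^ 2)) := by
          gcongr
      _ = 56 * C * (ph Λ r / r) := by field_simp; ring
  have e0 : ct m f z - ct m f w = ∫ s, ((z - f s)⁻¹ - (w - f s)⁻¹) ∂m := by
    rw [integral_sub (ct_integrable hΛ hC hR hRρ hf hg z) (ct_integrable hΛ hC hR hRρ hf hg w)]
    rfl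
  have hT0 : 0 ≤ 2 * r * (m univ).toReal / R ^ 2 := by positivity
  have key : ‖ct m f z - ct m f w‖ₑ ≤ ENNReal.ofReal (92 * C * om Λ r + 2 * r * (m univ).toReal / R ^ 2) := by
    rw [e0]
    refine (enorm_integral_le_lintegral_enorm _).trans ?_
    calc ∫⁻ s, ‖(z - f s)⁻¹ - (w - f s)⁻¹‖ₑ ∂m ≤
          ∫⁻ s, ((({s | dist (f s) z ≤ 2 * r}.indicator (fun s => ENNReal.ofReal (1 / dist (f s) z)) s +
            {s | dist (f s) w ≤ 4 * r}.indicator (fun s => ENNReal.ofReal (1 / dist (f s) w)) s) +
            ENNReal.ofReal (2 * r) * {s | 2 * r < dist (f s) z ∧ dist (f s) z ≤ R}.indicator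
              (fun s => ENNReal.ofReal (1 / dist (f s) z ^ 2)) s) + ENNReal.ofReal (2 * r / R ^ 2)) ∂m := by
          refine lintegral_mono fun s => ?_
          by_cases hs : dist (f s) z ≤ 2 * r
          · have hs' : dist (f s) w ≤ 4 * r := by
              have := dist_triangle (f s) z w
              linarith
            rw [indicator_of_mem (by exact hs), indicator_of_mem (by exact hs')]
            refine le_add_right (le_add_right ?_)
            rw [← enorm_inv_sub, ← enorm_inv_sub]
            exact enorm_sub_le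
          · have hs2 : 2 * r < dist (f s) z := not_le.1 hs
            have hz0 : z - f s ≠ 0 := by
              rw [sub_ne_zero]
              intro h
              rw [h, dist_self] at hs2
              linarith
            have hdw' : dist (f s) z / 2 ≤ dist (f s) w := by
              have := dist_triangle (f s) w z
              rw [dist_comm w z] at this
              linarith
            have hw0 : w - f s ≠ 0 := by
              rw [sub_ne_zero]
              intro h
              rw [h, dist_self] at hdw'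
              linarith
            have hval : ‖(z - f s)⁻¹ - (w - f s)⁻¹‖ ≤ 2 * r * (1 / dist (f s) z ^ 2) := by
              have e1 : (z - f s)⁻¹ - (w - f s)⁻¹ = (w - z) / ((z - f s) * (w - f s)) := by
                field_simp
                ring
              rw [e1, norm_div, norm_mul, ← dist_eq_norm w z, ← dist_eq_norm z (f s), ← dist_eq_norm w (f s),
                dist_comm w z, ← hr, dist_comm z (f s), dist_comm w (f s)]
              have hd1 : 0 < dist (f s) z := by linarith
              rw [mul_one_div, div_le_div_iff₀ (mul_pos hd1 (by linarith)) (by positivity)]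
              nlinarith [mul_le_mul_of_nonneg_left hdw' (mul_pos hzw hd1).le]
            by_cases hsR : dist (f s) z ≤ R
            · rw [indicator_of_notMem (by exact hs)]
              refine le_add_right (le_add_left ?_)
              rw [indicator_of_mem (by exact ⟨hs2, hsR⟩), ← ENNReal.ofReal_mul (by linarith), ← ofReal_norm]
              exact ENNReal.ofReal_le_ofReal hval
            · refine le_add_left ?_
              rw [← ofReal_norm]
              refine ENNReal.ofReal_le_ofReal (hval.trans ?_)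
              rw [mul_one_div]
              have : R ≤ dist (f s) z := (not_le.1 hsR).le
              gcongr
      _ = ((∫⁻ s in {s | dist (f s) z ≤ 2 * r}, ENNReal.ofReal (1 / dist (f s) z) ∂m +
            ∫⁻ s in {s | dist (f s) w ≤ 4 * r}, ENNReal.ofReal (1 / dist (f s) w) ∂m) +
            ENNReal.ofReal (2 * r) * ∫⁻ s in {s | 2 * r < dist (f s) z ∧ dist (f s) z ≤ R},
              ENNReal.ofReal (1 / dist (f s) z ^ 2) ∂m) + ENNReal.ofReal (2 * r / R ^ 2) * m univ := by
          have q1 : Measurable ({s | dist (f s) z ≤ 2 * r}.indicator (fun s => ENNReal.ofReal (1 / dist (f s) z))) :=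
            ((measurable_const.div hdz).ennreal_ofReal).indicator hm1
          have q2 : Measurable ({s | dist (f s) w ≤ 4 * r}.indicator (fun s => ENNReal.ofReal (1 / dist (f s) w))) :=
            ((measurable_const.div hdw).ennreal_ofReal).indicator hm2
          have q3 : Measurable ({s | 2 * r < dist (f s) z ∧ dist (f s) z ≤ R}.indicator
              (fun s => ENNReal.ofReal (1 / dist (f s) z ^ 2))) :=
            ((measurable_const.div (hdz.pow_const 2)).ennreal_ofReal).indicator hm3
          rw [lintegral_add_right _ measurable_const, lintegral_const, lintegral_add_right _ (q3.const_mul _),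
            lintegral_add_right _ q2, lintegral_const_mul _ q3, lintegral_indicator hm1, lintegral_indicator hm2,
            lintegral_indicator hm3]
      _ ≤ ((ENNReal.ofReal (12 * C * om Λ r) + ENNReal.ofReal (24 * C * om Λ r)) +
            ENNReal.ofReal (56 * C * om Λ r)) + ENNReal.ofReal (2 * r * (m univ).toReal / R ^ 2) := by
          refine add_le_add (add_le_add (add_le_add ?_ ?_) ?_) ?_
          · exact h1.trans (ENNReal.ofReal_le_ofReal b1)
          · exact h2.trans (ENNReal.ofReal_le_ofReal b2)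
          · refine (mul_le_mul_right h3 _).trans ?_
            rw [← ENNReal.ofReal_mul (by linarith)]
            exact ENNReal.ofReal_le_ofReal b3
          · rw [show 2 * r * (m univ).toReal / R ^ 2 = 2 * r / R ^ 2 * (m univ).toReal by ring,
              ENNReal.ofReal_mul (by positivity), ENNReal.ofReal_toReal (measure_ne_top _ _)]
      _ = ENNReal.ofReal (92 * C * om Λ r + 2 * r * (m univ).toReal / R ^ 2) := by
          rw [← ENNReal.ofReal_add (by positivity) (by positivity), ← ENNReal.ofReal_add (by positivity) (by positivity),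
            ← ENNReal.ofReal_add (by positivity) (by positivity)]
          congr 1
          ring
  rw [← ofReal_norm] at key
  exact (ENNReal.ofReal_le_ofReal_iff (by positivity)).1 key

/-- the modulus of continuity of the Cauchy transform -/
theorem ct_mod [IsFiniteMeasure m] (hΛ : Slow Λ ρ) {C R : ℝ} (hC : 0 < C) (hR : 0 < R) (hRρ : R ≤ ρ)
    {f : X → ℂ} (hf : Continuous f) (hg : Gr m f Λ C R) : ∃ δ : ℝ, 0 < δ ∧ ∀ z w : ℂ, dist z w ≤ δ →
    ‖ct m f z - ct m f w‖ ≤ 93 * C * om Λ (dist z w) := by
  obtain ⟨A, hA⟩ : ∃ A, A = 2 * (m univ).toReal / R ^ 2 + 1 := ⟨_, rfl⟩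
  have hA0 : 0 < A := by rw [hA]; positivity
  refine ⟨min (R / 4) ((C / A) ^ 4), lt_min (by linarith) (by positivity), fun z w hzw => ?_⟩
  rcases (dist_nonneg (x := z) (y := w)).eq_or_lt with h0 | h0
  · have : z = w := dist_eq_zero.1 h0.symm
    rw [this, sub_self, norm_zero, dist_self]
    unfold om
    rw [Real.zero_rpow (by norm_num), zero_mul, mul_zero]
  · have h1 := ct_diff hΛ hC.le hR hRρ hf hg h0 (by
      have := hzw.trans (min_le_left _ _)
      linarith)
    obtain ⟨r, hr⟩ : ∃ r, r = dist z w := ⟨_, rfl⟩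
    rw [← hr] at h0 hzw h1 ⊢
    have hrρ : r ≤ ρ := by
      have := hzw.trans (min_le_left _ _)
      linarith
    have h2 : r ≤ (C / A) ^ 4 := hzw.trans (min_le_right _ _)
    have h3 : r ^ (1/4 : ℝ) ≤ C / A := by
      calc r ^ (1/4 : ℝ) ≤ ((C / A) ^ 4) ^ (1/4 : ℝ) := Real.rpow_le_rpow h0.le h2 (by norm_num)
        _ = C / A := by
            rw [← Real.rpow_natCast, ← Real.rpow_mul (by positivity)]
            norm_num
    have h4 : A * r ≤ C * om Λ r := by
      have e1 : r = r ^ (1/4 : ℝ) * r ^ (3/4 : ℝ) := by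
        rw [← Real.rpow_add h0]
        norm_num
      have h5 : r ^ (3/4 : ℝ) ≤ om Λ r := by
        unfold om
        have := hΛ.one r h0 hrρ
        nlinarith [Real.rpow_pos_of_pos h0 (3/4 : ℝ)]
      rw [le_div_iff₀ hA0] at h3
      calc A * r = (r ^ (1/4 : ℝ) * A) * r ^ (3/4 : ℝ) := by
            conv_lhs => rw [e1]
            ring
        _ ≤ C * r ^ (3/4 : ℝ) := mul_le_mul_of_nonneg_right h3 (by positivity)
        _ ≤ C * om Λ r := mul_le_mul_of_nonneg_left h5 hC.le
    have h6 : 2 * r * (m univ).toReal / R ^ 2 ≤ A * r := by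
      rw [hA]
      have : 2 * r * (m univ).toReal / R ^ 2 = 2 * (m univ).toReal / R ^ 2 * r := by ring
      rw [this]
      nlinarith
    linarith

theorem ct_cont [IsFiniteMeasure m] (hΛ : Slow Λ ρ) {C R : ℝ} (hC : 0 < C) (hR : 0 < R) (hRρ : R ≤ ρ)
    {f : X → ℂ} (hf : Continuous f) (hg : Gr m f Λ C R) : Continuous (ct m f) := by
  obtain ⟨δ, hδ, h⟩ := ct_mod hΛ hC hR hRρ hf hg
  refine Metric.continuous_iff.2 fun z ε hε => ?_
  obtain ⟨δ', hδ', -, h2⟩ := om_small hΛ (show 0 < ε / (93 * C) / 2 by positivity)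
  refine ⟨min δ δ', lt_min hδ hδ', fun w hw => ?_⟩
  rw [dist_eq_norm]
  rcases (dist_nonneg (x := w) (y := z)).eq_or_lt with h0 | h0
  · have : w = z := dist_eq_zero.1 h0.symm
    rw [this, sub_self, norm_zero]
    exact hε
  · refine (h w z (hw.le.trans (min_le_left _ _))).trans_lt ?_
    have h3 := h2 _ h0 (hw.le.trans (min_le_right _ _))
    calc 93 * C * om Λ (dist w z) ≤ 93 * C * (ε / (93 * C) / 2) := by gcongr
      _ = ε / 2 := by field_simp
      _ < ε := by linarith

/-- differentiability off the support -/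
theorem ct_diffAt [IsFiniteMeasure m] {f : X → ℂ} (hf : Continuous f) {w0 : ℂ} {ε : ℝ} (hε : 0 < ε)
    (h : ∀ᵐ s ∂m, 2 * ε ≤ dist (f s) w0) : DifferentiableAt ℂ (ct m f) w0 := by
  have hmeas : ∀ w : ℂ, AEStronglyMeasurable (fun s => (w - f s)⁻¹) m := fun w =>
    ((continuous_const.sub hf).measurable.inv).aestronglyMeasurable
  have hfar : ∀ᵐ s ∂m, ∀ w ∈ Metric.ball w0 ε, ε ≤ ‖w - f s‖ := by
    filter_upwards [h] with s hs w hw
    rw [← dist_eq_norm, dist_comm]
    have h1 := dist_triangle (f s) w w0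
    have h2 := Metric.mem_ball.1 hw
    linarith
  have key := hasDerivAt_integral_of_dominated_loc_of_deriv_le (μ := m) (𝕜 := ℂ)
    (F := fun w s => (w - f s)⁻¹) (F' := fun w s => -((w - f s) ^ 2)⁻¹) (x₀ := w0)
    (s := Metric.ball w0 ε) (bound := fun _ => (ε ^ 2)⁻¹) (Metric.ball_mem_nhds w0 hε)
    (Eventually.of_forall hmeas)
    (by
      refine ⟨hmeas w0, ?_⟩
      refine HasFiniteIntegral.of_bounded (C := ε⁻¹) ?_
      filter_upwards [hfar] with s hs
      rw [norm_inv]
      exact inv_anti₀ hε (hs w0 (Metric.mem_ball_self hε)))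
    ((((continuous_const.sub hf).measurable.pow_const 2).inv).neg.aestronglyMeasurable)
    (by
      filter_upwards [hfar] with s hs w hw
      rw [norm_neg, norm_inv, norm_pow]
      exact inv_anti₀ (by positivity) (pow_le_pow_left₀ hε.le (hs w hw) 2))
    (integrable_const _)
    (by
      filter_upwards [hfar] with s hs w hw
      have h0 : w - f s ≠ 0 := by
        intro h0
        have := hs w hw
        rw [h0, norm_zero] at this
        linarith
      have h1 := ((hasDerivAt_id w).sub_const (f s)).inv h0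
      simp only [id_eq] at h1
      rw [neg_div, one_div] at h1
      exact h1)
  exact key.2.differentiableAt

theorem ct_diffOn [IsFiniteMeasure m] [CompactSpace X] {f : X → ℂ} (hf : Continuous f) {E : Set X} (hE : IsClosed E)
    (hm : m Eᶜ = 0) : DifferentiableOn ℂ (ct m f) (f '' E)ᶜ := by
  intro w0 hw0
  have hcl : IsClosed (f '' E) := (hE.isCompact.image hf).isClosed
  obtain ⟨ε, hε, hb⟩ := Metric.isOpen_iff.1 hcl.isOpen_compl w0 hw0
  refine (ct_diffAt hf (half_pos hε) ?_).differentiableWithinAt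
  have : ∀ᵐ s ∂m, s ∈ E := by
    rw [ae_iff]
    exact hm
  filter_upwards [this] with s hs
  by_contra hlt
  have h1 : f s ∈ Metric.ball w0 ε := Metric.mem_ball.2 (by linarith [not_le.1 hlt])
  exact hb h1 ⟨s, hs, rfl⟩

/-- behaviour at infinity -/
theorem ct_inf [IsFiniteMeasure m] {f : X → ℂ} (hf : Continuous f) {B : ℝ} (hB : ∀ s, ‖f s‖ ≤ B) :
    Tendsto (ct m f) (cocompact ℂ) (𝓝 0) ∧
      Tendsto (fun w => w * ct m f w) (cocompact ℂ) (𝓝 ((m univ).toReal : ℂ)) := by
  have hN : Tendsto (fun w : ℂ => (‖w‖ - B)⁻¹) (cocompact ℂ) (𝓝 0) :=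
    tendsto_inv_atTop_zero.comp (tendsto_atTop_add_const_right _ (-B) (tendsto_norm_cocompact_atTop (E := ℂ)))
  have hev : ∀ᶠ w : ℂ in cocompact ℂ, 0 < ‖w‖ - B := by
    have := (tendsto_norm_cocompact_atTop (E := ℂ)).eventually_gt_atTop B
    filter_upwards [this] with w hw
    linarith
  have hb : ∀ w : ℂ, 0 < ‖w‖ - B → ∀ s, ‖(w - f s)⁻¹‖ ≤ (‖w‖ - B)⁻¹ := fun w hw s => by
    rw [norm_inv]
    refine inv_anti₀ hw ?_
    have := norm_sub_norm_le w (f s)
    have := hB s
    linarith
  have hmeas : ∀ w : ℂ, AEStronglyMeasurable (fun s => (w - f s)⁻¹) m := fun w =>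
    ((continuous_const.sub hf).measurable.inv).aestronglyMeasurable
  constructor
  · have h1 : Tendsto (fun w : ℂ => (‖w‖ - B)⁻¹ * (m univ).toReal) (cocompact ℂ) (𝓝 0) := by
      simpa using hN.mul_const ((m univ).toReal)
    refine squeeze_zero_norm' ?_ h1
    filter_upwards [hev] with w hw
    have := norm_integral_le_of_norm_le_const (μ := m) (Eventually.of_forall (hb w hw))
    exact this
  · rw [tendsto_iff_norm_sub_tendsto_zero]
    have h1 : Tendsto (fun w : ℂ => (|B| * (‖w‖ - B)⁻¹) * (m univ).toReal) (cocompact ℂ) (𝓝 0) := by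
      simpa using (hN.const_mul |B|).mul_const ((m univ).toReal)
    refine squeeze_zero' (Eventually.of_forall fun _ => norm_nonneg _) ?_ h1
    filter_upwards [hev] with w hw
    have hne : ∀ s, w - f s ≠ 0 := fun s h0 => by
      have h2 := norm_sub_norm_le w (f s)
      rw [h0, norm_zero] at h2
      have := hB s
      linarith
    have hint : Integrable (fun s => (w - f s)⁻¹) m :=
      ⟨hmeas w, HasFiniteIntegral.of_bounded (Eventually.of_forall (hb w hw))⟩
    have e1 : w * ct m f w - ((m univ).toReal : ℂ) = ∫ s, f s * (w - f s)⁻¹ ∂m := by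
      have e2 : ((m univ).toReal : ℂ) = ∫ _ : X, (1 : ℂ) ∂m := by
        rw [integral_const]
        simp [Measure.real]
      rw [e2]
      unfold ct
      rw [← integral_const_mul, ← integral_sub (hint.const_mul w) (integrable_const _)]
      congr 1
      funext s
      have := hne s
      field_simp
      ring
    rw [e1]
    refine norm_integral_le_of_norm_le_const (μ := m) (Eventually.of_forall fun s => ?_)
    rw [norm_mul]
    exact mul_le_mul ((hB s).trans (le_abs_self _)) (hb w hw s) (norm_nonneg _) (abs_nonneg _)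

/-- the Cauchy transform of a nonzero measure is not entire -/
theorem ct_not_entire [IsFiniteMeasure m] {f : X → ℂ} (hf : Continuous f) {B : ℝ} (hB : ∀ s, ‖f s‖ ≤ B)
    (hm : m univ ≠ 0) : ¬ Differentiable ℂ (ct m f) := by
  intro hd
  obtain ⟨h1, h2⟩ := ct_inf (m := m) hf hB
  have h3 : ∀ w, ct m f w = 0 := fun w => hd.apply_eq_of_tendsto_cocompact w h1
  have h4 : Tendsto (fun _ : ℂ => (0 : ℂ)) (cocompact ℂ) (𝓝 ((m univ).toReal : ℂ)) := by
    refine h2.congr fun w => ?_
    rw [h3, mul_zero]
  have h5 := tendsto_nhds_unique h4 tendsto_const_nhds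
  have h6 : (m univ).toReal = 0 := by exact_mod_cast h5
  rw [ENNReal.toReal_eq_zero_iff] at h6
  rcases h6 with h6 | h6
  · exact hm h6
  · exact measure_ne_top _ _ h6

end Pool.Agent.N481.PC
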