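import Pool.Agent.N481.PC.Cauchy

/-!
Circle integrals of the Cauchy transform.
-/

set_option autoImplicit false

namespace Pool.Agent.N481.PC

open Set MeasureTheory Filter Topology Complex
open scoped ENNReal Real

variable {Λ : ℝ → ℝ} {ρ : ℝ} {X : Type*} [TopologicalSpace X] [MeasurableSpace X] [BorelSpace X] {m : Measure X}

theorem circ_pt (z v : ℂ) {r : ℝ} (hr : 0 < r) : (∮ w in C(z, r), (w - v)⁻¹) =
    {v | dist v z < r}.indicator (fun _ => (2 * π * I : ℂ)) v := by
  rcases lt_trichotomy (dist v z) r with h | h | h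
  · rw [indicator_of_mem (by exact h)]
    exact circleIntegral.integral_sub_inv_of_mem_ball (Metric.mem_ball.2 h)
  · rw [indicator_of_notMem (by show ¬ dist v z < r; linarith)]
    refine circleIntegral.integral_undef fun h' => ?_
    rw [circleIntegrable_sub_inv_iff] at h'
    rcases h' with h' | h'
    · linarith
    · exact h' (by rw [abs_of_pos hr]; exact h)
  · rw [indicator_of_notMem (by show ¬ dist v z < r; linarith)]
    have hne : ∀ w ∈ Metric.closedBall z r, w - v ≠ 0 := fun w hw h0 => by
      rw [sub_eq_zero] at h0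
      rw [h0] at hw
      linarith [Metric.mem_closedBall.1 hw]
    refine Complex.circleIntegral_eq_zero_of_differentiable_on_off_countable hr.le countable_empty ?_ ?_
    · exact ContinuousOn.inv₀ (by fun_prop) hne
    · intro w hw
      exact ((differentiableAt_id.sub_const v).inv (hne w (Metric.ball_subset_closedBall hw.1)))

theorem circ_ct [IsFiniteMeasure m] (hΛ : Slow Λ ρ) {C R : ℝ} (hC : 0 ≤ C) (hR : 0 < R) (hRρ : R ≤ ρ)
    {f : X → ℂ} (hf : Continuous f) (hg : Gr m f Λ C R) (z : ℂ) {r : ℝ} (hr : 0 < r) :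
    (∮ w in C(z, r), ct m f w) = ((m {s | dist (f s) z < r}).toReal : ℂ) * (2 * π * I) := by
  have hm0 : MeasurableSet {s | dist (f s) z < r} :=
    measurableSet_lt (hf.dist continuous_const).measurable measurable_const
  have e1 : (∮ w in C(z, r), ct m f w) =
      ∫ θ in Ioc 0 (2 * π), ∫ s, deriv (circleMap z r) θ • (circleMap z r θ - f s)⁻¹ ∂m := by
    unfold circleIntegral
    rw [intervalIntegral.integral_of_le Real.two_pi_pos.le]
    congr 1
    funext θ
    rw [integral_smul]
    rfl
  have hint : Integrable (Function.uncurry fun (θ : ℝ) (s : X) =>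
      deriv (circleMap z r) θ • (circleMap z r θ - f s)⁻¹) ((volume.restrict (Ioc 0 (2 * π))).prod m) := by
    have hmeas : Measurable (Function.uncurry fun (θ : ℝ) (s : X) =>
        deriv (circleMap z r) θ • (circleMap z r θ - f s)⁻¹) := by
      have h1 : Measurable fun θ : ℝ => deriv (circleMap z r) θ := by
        simp only [deriv_circleMap]
        exact ((continuous_circleMap 0 r).mul continuous_const).measurable
      have h2 : Measurable fun θ : ℝ => circleMap z r θ := (continuous_circleMap z r).measurable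
      exact (h1.comp measurable_fst).smul ((h2.comp measurable_fst).sub (hf.measurable.comp measurable_snd)).inv
    refine ⟨hmeas.aestronglyMeasurable, ?_⟩
    unfold HasFiniteIntegral
    rw [lintegral_prod _ hmeas.enorm.aemeasurable]
    obtain ⟨B, hB⟩ : ∃ B, B = ENNReal.ofReal (6 * C * (ph Λ R / R)) + ENNReal.ofReal (1 / R) * m univ := ⟨_, rfl⟩
    have hBt : B < ∞ := by
      rw [hB]
      exact ENNReal.add_lt_top.2 ⟨ENNReal.ofReal_lt_top, ENNReal.mul_lt_top ENNReal.ofReal_lt_top (measure_lt_top _ _)⟩
    calc ∫⁻ θ in Ioc 0 (2 * π), ∫⁻ s, ‖(Function.uncurry fun (θ : ℝ) (s : X) =>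
          deriv (circleMap z r) θ • (circleMap z r θ - f s)⁻¹) (θ, s)‖ₑ ∂m ≤
        ∫⁻ θ in Ioc 0 (2 * π), ENNReal.ofReal r * B := by
          refine lintegral_mono fun θ => ?_
          simp only [Function.uncurry_apply_pair, enorm_smul]
          have hme : Measurable fun s => ‖(circleMap z r θ - f s)⁻¹‖ₑ :=
            ((measurable_const.sub hf.measurable).inv).enorm
          rw [lintegral_const_mul _ hme]
          refine mul_le_mul' (le_of_eq ?_) ?_
          · rw [← ofReal_norm, deriv_circleMap, norm_mul, Complex.norm_I, mul_one, norm_circleMap_zero, abs_of_pos hr]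
          · rw [hB]
            exact ct_fin hΛ hC hR hRρ hf hg _
      _ < ∞ := by
          rw [lintegral_const]
          exact ENNReal.mul_lt_top (ENNReal.mul_lt_top ENNReal.ofReal_lt_top hBt) (measure_lt_top _ _)
  rw [e1, integral_integral_swap hint]
  have e2 : ∀ s : X, (∫ θ in Ioc 0 (2 * π), deriv (circleMap z r) θ • (circleMap z r θ - f s)⁻¹) =
      {s | dist (f s) z < r}.indicator (fun _ => (2 * π * I : ℂ)) s := fun s => by
    have := circ_pt z (f s) hr
    unfold circleIntegral at this
    rw [intervalIntegral.integral_of_le Real.two_pi_pos.le] at this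
    rw [this]
    rfl
  rw [integral_congr_ae (Eventually.of_forall e2), integral_indicator_const _ hm0]
  rw [Complex.real_smul]
  rfl

/-- the lower bound for the modulus of continuity -/
theorem ct_low [IsFiniteMeasure m] (hΛ : Slow Λ ρ) {C R : ℝ} (hC : 0 < C) (hR : 0 < R) (hRρ : R ≤ ρ)
    {f : X → ℂ} (hf : Continuous f) (hg : Gr m f Λ C R) (z : ℂ) {r : ℝ} (hr : 0 < r) :
    ∃ w : ℂ, dist w z = r ∧ (m {s | dist (f s) z < r}).toReal / (2 * r) ≤ ‖ct m f w - ct m f z‖ := by
  obtain ⟨μ, hμ⟩ : ∃ μ, μ = (m {s | dist (f s) z < r}).toReal := ⟨_, rfl⟩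
  have hμ0 : 0 ≤ μ := by rw [hμ]; exact ENNReal.toReal_nonneg
  rcases hμ0.eq_or_lt with h0 | h0
  · refine ⟨z + r, by simp [dist_eq_norm, abs_of_pos hr], ?_⟩
    rw [← hμ, ← h0, zero_div]
    exact norm_nonneg _
  · by_contra hcon
    push Not at hcon
    rw [← hμ] at hcon
    have hK := ct_cont hΛ hC hR hRρ hf hg
    have e1 := circ_ct hΛ hC.le hR hRρ hf hg z hr
    rw [← hμ] at e1
    have e2 : (∮ w in C(z, r), (ct m f w - ct m f z)) = (∮ w in C(z, r), ct m f w) := by
      rw [circleIntegral.integral_sub hK.continuousOn.circleIntegrable' continuousOn_const.circleIntegrable']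
      have : (∮ _ in C(z, r), ct m f z) = 0 := by
        refine Complex.circleIntegral_eq_zero_of_differentiable_on_off_countable hr.le countable_empty
          continuousOn_const fun w _ => differentiableAt_const _
      rw [this, sub_zero]
    have h1 := circleIntegral.norm_integral_le_of_norm_le_const (c := z) (R := r) (C := μ / (2 * r))
      (f := fun w => ct m f w - ct m f z) hr.le (fun w hw => (hcon w hw).le)
    rw [e2, e1, norm_mul, norm_mul, norm_mul, Complex.norm_I, Complex.norm_real, Complex.norm_real, mul_one,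
      Real.norm_of_nonneg hμ0, Real.norm_of_nonneg Real.pi_pos.le] at h1
    have e3 : 2 * π * r * (μ / (2 * r)) = π * μ := by field_simp
    rw [e3] at h1
    have e4 : ‖(2 : ℂ)‖ = 2 := by simp
    rw [e4] at h1
    nlinarith [Real.pi_pos, mul_pos Real.pi_pos h0]

/-- singular points -/
theorem ct_sing [IsFiniteMeasure m] (hΛ : Slow Λ ρ) {C R : ℝ} (hC : 0 ≤ C) (hR : 0 < R) (hRρ : R ≤ ρ)
    {f : X → ℂ} (hf : Continuous f) (hg : Gr m f Λ C R) {z : ℂ} {r : ℝ}
    (hd : DifferentiableOn ℂ (ct m f) (Metric.ball z r)) {r' : ℝ} (hr' : 0 < r') (hrr : r' < r) :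
    m {s | dist (f s) z < r'} = 0 := by
  have e1 := circ_ct hΛ hC hR hRρ hf hg z hr'
  have e2 : (∮ w in C(z, r'), ct m f w) = 0 := by
    refine Complex.circleIntegral_eq_zero_of_differentiable_on_off_countable hr'.le countable_empty ?_ ?_
    · exact hd.continuousOn.mono (Metric.closedBall_subset_ball hrr)
    · intro w hw
      exact hd.differentiableAt (Metric.isOpen_ball.mem_nhds (Metric.ball_subset_ball hrr.le hw.1))
  rw [e2] at e1
  have h1 : ((m {s | dist (f s) z < r'}).toReal : ℂ) = 0 := by
    rcases mul_eq_zero.1 e1.symm with h | h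
    · exact h
    · exact absurd h Complex.two_pi_I_ne_zero
  have h2 : (m {s | dist (f s) z < r'}).toReal = 0 := by exact_mod_cast h1
  rw [ENNReal.toReal_eq_zero_iff] at h2
  rcases h2 with h2 | h2
  · exact h2
  · exact absurd h2 (measure_ne_top _ _)

end Pool.Agent.N481.PC
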