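import Pool.Agent.N481.PC.Grid

/-!
Economic covers from a finite Hausdorff measure.
-/

set_option autoImplicit false

namespace Pool.Agent.N481.PC

open Set MeasureTheory Metric
open scoped ENNReal

theorem cov_of_mkMetric {Λ : ℝ → ℝ} {ρ : ℝ} (hΛ : Slow Λ ρ) {g : ℝ≥0∞ → ℝ≥0∞}
    (hg : ∀ s : ℝ, 0 < s → s ≤ ρ → ENNReal.ofReal (ph Λ s) ≤ g (ENNReal.ofReal s)) {S : Set ℂ}
    (hS : IsCompact S) {M η : ℝ} (hM : 0 ≤ M) (hη : 0 < η) (h : Measure.mkMetric g S ≤ ENNReal.ofReal M) :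
    Cov Λ S (M + η) := by
  classical
  intro δ hδ
  obtain ⟨δ', hδ'⟩ : ∃ δ', δ' = min δ ρ := ⟨_, rfl⟩
  have hρ := hΛ.pos
  have hδ'0 : 0 < δ' := by rw [hδ']; exact lt_min hδ hρ
  have h1 : (⨅ (t : ℕ → Set ℂ) (_ : S ⊆ iUnion t) (_ : ∀ n, ediam (t n) ≤ ENNReal.ofReal δ'),
      ∑' n, ⨆ _ : (t n).Nonempty, g (ediam (t n))) ≤ ENNReal.ofReal M := by
    refine le_trans ?_ h
    rw [Measure.mkMetric_apply]
    exact le_iSup₂_of_le (ENNReal.ofReal δ') (ENNReal.ofReal_pos.2 hδ'0) le_rfl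
  have h2 : (⨅ (t : ℕ → Set ℂ) (_ : S ⊆ iUnion t) (_ : ∀ n, ediam (t n) ≤ ENNReal.ofReal δ'),
      ∑' n, ⨆ _ : (t n).Nonempty, g (ediam (t n))) < ENNReal.ofReal (M + η/2) :=
    h1.trans_lt ((ENNReal.ofReal_lt_ofReal_iff (by linarith)).2 (by linarith))
  simp only [iInf_lt_iff] at h2
  obtain ⟨t, hcov, hdiam, hsum⟩ := h2
  have he : ∀ n : ℕ, ∃ e : ℝ, 0 < e ∧ e ≤ δ' ∧ ph Λ e ≤ η * (1/2 : ℝ) ^ (n + 2) := fun n => by
    obtain ⟨e, he, -, h3⟩ := ph_small hΛ (show (0 : ℝ) < η * (1/2 : ℝ) ^ (n + 2) by positivity)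
    exact ⟨min e δ', lt_min he hδ'0, min_le_right _ _, h3 _ (lt_min he hδ'0) (min_le_left _ _)⟩
  choose e he0 heδ hephi using he
  have hx : ∀ n : ℕ, ∃ x : ℂ, (t n).Nonempty → x ∈ t n := fun n => by
    by_cases hn : (t n).Nonempty
    · exact ⟨hn.some, fun _ => hn.some_mem⟩
    · exact ⟨0, fun h => absurd h hn⟩
  choose x hx using hx
  obtain ⟨d, hd⟩ : ∃ d : ℕ → ℝ, ∀ n, d n = if 0 < (ediam (t n)).toReal then (ediam (t n)).toReal else e n :=
    ⟨_, fun _ => rfl⟩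
  have hfin : ∀ n, ediam (t n) ≠ ∞ := fun n => ((hdiam n).trans_lt ENNReal.ofReal_lt_top).ne
  have hdδ : ∀ n, (ediam (t n)).toReal ≤ δ' := fun n => ENNReal.toReal_le_of_le_ofReal hδ'0.le (hdiam n)
  have hd0 : ∀ n, 0 < d n ∧ d n ≤ δ' := fun n => by
    rw [hd]
    split_ifs with h3
    · exact ⟨h3, hdδ n⟩
    · exact ⟨he0 n, heδ n⟩
  have hdd : ∀ n, (ediam (t n)).toReal ≤ d n := fun n => by
    rw [hd]
    split_ifs with h3
    · exact le_rfl
    · exact (not_lt.1 h3).trans (he0 n).le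
  have hphi : ∀ n, ENNReal.ofReal (ph Λ (d n)) ≤
      (⨆ _ : (t n).Nonempty, g (ediam (t n))) + ENNReal.ofReal (η * (1/2 : ℝ) ^ (n + 2)) := fun n => by
    rw [hd]
    split_ifs with h3
    · have hne : (t n).Nonempty := by
        rw [nonempty_iff_ne_empty]
        intro h4
        rw [h4] at h3
        simp at h3
      rw [iSup_pos hne]
      refine le_add_right ?_
      have h5 := hg _ h3 ((hdδ n).trans (by rw [hδ']; exact min_le_right _ _))
      rwa [ENNReal.ofReal_toReal (hfin n)] at h5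
    · exact le_add_left (ENNReal.ofReal_le_ofReal (hephi n))
  obtain ⟨F, hF⟩ := hS.elim_finite_subcover (fun n => ball (x n) (2 * d n)) (fun n => isOpen_ball) (by
    intro z hz
    obtain ⟨n, hn⟩ := mem_iUnion.1 (hcov hz)
    refine mem_iUnion.2 ⟨n, ?_⟩
    have h3 : edist z (x n) ≤ ediam (t n) := edist_le_ediam_of_mem hn (hx n ⟨z, hn⟩)
    have h4 : dist z (x n) ≤ d n := by
      refine le_trans ?_ (hdd n)
      rw [edist_dist] at h3
      exact (ENNReal.ofReal_le_iff_le_toReal (hfin n)).1 h3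
    rw [mem_ball]
    linarith [(hd0 n).1])
  refine ⟨F, x, d, fun i _ => ⟨(hd0 i).1, (hd0 i).2.trans (by rw [hδ']; exact min_le_left _ _)⟩,
    fun z hz => ?_, ?_⟩
  · obtain ⟨i, hi, hzi⟩ := mem_iUnion₂.1 (hF hz)
    exact ⟨i, hi, (mem_ball.1 hzi).le⟩
  · rw [← ENNReal.ofReal_le_ofReal_iff (by linarith)]
    have hp : ∀ i, 0 ≤ ph Λ (d i) := fun i => by
      have := hd0 i
      exact (ph_pos hΛ this.1 (this.2.trans (by rw [hδ']; exact min_le_right _ _))).le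
    rw [ENNReal.ofReal_sum_of_nonneg fun i _ => hp i]
    calc ∑ i ∈ F, ENNReal.ofReal (ph Λ (d i)) ≤ ∑ i ∈ F, ((⨆ _ : (t i).Nonempty, g (ediam (t i))) +
          ENNReal.ofReal (η * (1/2 : ℝ) ^ (i + 2))) := Finset.sum_le_sum fun i _ => hphi i
      _ = ∑ i ∈ F, (⨆ _ : (t i).Nonempty, g (ediam (t i))) + ∑ i ∈ F, ENNReal.ofReal (η * (1/2 : ℝ) ^ (i + 2)) :=
          Finset.sum_add_distrib
      _ ≤ ENNReal.ofReal (M + η/2) + ENNReal.ofReal (η/2) := by
          refine add_le_add ((ENNReal.sum_le_tsum F).trans hsum.le) ?_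
          rw [← ENNReal.ofReal_sum_of_nonneg fun i _ => by positivity]
          refine ENNReal.ofReal_le_ofReal ?_
          have h5 : HasSum (fun i : ℕ => η * (1/2 : ℝ) ^ (i + 2)) (η/2) := by
            have h6 := hasSum_geometric_two.mul_left (η/4)
            have e1 : (fun i : ℕ => η * (1/2 : ℝ) ^ (i + 2)) = fun i : ℕ => (η/4) * (1/2) ^ i := by
              funext i; rw [pow_add]; ring
            have e2 : η/2 = η/4 * 2 := by ring
            rw [e1, e2]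
            exact h6
          exact sum_le_hasSum F (fun i _ => by positivity) h5
      _ = ENNReal.ofReal (M + η) := by
          rw [← ENNReal.ofReal_add (by linarith) (by linarith)]
          congr 1
          ring

end Pool.Agent.N481.PC
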