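import Pool.Agent.N481.PC.Slow
import Pool.Agent.N481.PC.Bd

/-!
The dyadic grid of a rectangle and the bound for the boundary integral of a function which is holomorphic off a set
with economic covers.
-/

set_option autoImplicit false

namespace Pool.Agent.N481.PC

open Complex Set MeasureTheory Metric

theorem sum_biUnion_le' {ι κ : Type*} [DecidableEq ι] [DecidableEq κ] (t : Finset ι) (f : ι → Finset κ) (g : κ → ℝ)
    (hg : ∀ j, 0 ≤ g j) : ∑ j ∈ t.biUnion f, g j ≤ ∑ i ∈ t, ∑ j ∈ f i, g j := by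
  induction t using Finset.induction_on with
  | empty => simp
  | insert i t hi ih =>
    rw [Finset.biUnion_insert, Finset.sum_insert hi]
    have h1 := Finset.sum_union_inter (s₁ := f i) (s₂ := t.biUnion f) (f := g)
    have h2 : 0 ≤ ∑ j ∈ f i ∩ t.biUnion f, g j := Finset.sum_nonneg fun j _ => hg j
    linarith

/-- grid points -/
noncomputable def gp (x0 W : ℝ) (n p : ℕ) : ℝ := x0 + W * p / 2 ^ n

theorem gp_even (x0 W : ℝ) (n p : ℕ) : gp x0 W (n + 1) (2 * p) = gp x0 W n p := by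
  unfold gp
  rw [pow_succ]
  push_cast
  congr 1
  field_simp

theorem gp_succ (x0 W : ℝ) (n p : ℕ) : gp x0 W n (p + 1) = gp x0 W n p + W / 2 ^ n := by
  unfold gp
  push_cast
  ring

theorem gp_mono {x0 W : ℝ} (hW : 0 ≤ W) (n : ℕ) {p q : ℕ} (h : p ≤ q) : gp x0 W n p ≤ gp x0 W n q := by
  unfold gp
  have : (p : ℝ) ≤ q := by exact_mod_cast h
  gcongr

theorem gp_lo {x0 W : ℝ} (hW : 0 ≤ W) (n p : ℕ) : x0 ≤ gp x0 W n p := by
  unfold gp
  have : 0 ≤ W * p / 2 ^ n := by positivity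
  linarith

theorem gp_hi {x0 W : ℝ} (hW : 0 ≤ W) {n p : ℕ} (h : p ≤ 2 ^ n) : gp x0 W n p ≤ x0 + W := by
  unfold gp
  have h1 : (p : ℝ) ≤ 2 ^ n := by exact_mod_cast h
  have : W * p / 2 ^ n ≤ W := by
    rw [div_le_iff₀ (by positivity)]
    exact mul_le_mul_of_nonneg_left h1 hW
  linarith

theorem gp_exists {x0 W x : ℝ} (h0 : x0 ≤ x) (h1 : x ≤ x0 + W) (k : ℕ) :
    ∃ p, p < 2 ^ k ∧ gp x0 W k p ≤ x ∧ x ≤ gp x0 W k (p + 1) := by
  induction k with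
  | zero =>
    refine ⟨0, by norm_num, ?_, ?_⟩
    · simpa [gp] using h0
    · simpa [gp] using h1
  | succ k ih =>
    obtain ⟨p, hp, h2, h3⟩ := ih
    have e : 2 ^ (k + 1) = 2 * 2 ^ k := by ring
    rcases le_total x (gp x0 W (k + 1) (2 * p + 1)) with h | h
    · exact ⟨2 * p, by omega, by rw [gp_even]; exact h2, h⟩
    · refine ⟨2 * p + 1, by omega, h, ?_⟩
      rw [show 2 * p + 1 + 1 = 2 * (p + 1) by ring, gp_even]
      exact h3

theorem gp_box {W : ℝ} (hW : 0 < W) (x0 x : ℝ) (k : ℕ) : ∃ a : ℕ, ∀ (y : ℝ) (p : ℕ),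
    |y - x| ≤ W / 2 ^ k → gp x0 W k p ≤ y → y ≤ gp x0 W k (p + 1) → p ∈ Finset.Icc a (a + 3) := by
  obtain ⟨s, hs⟩ : ∃ s, s = W / 2 ^ k := ⟨_, rfl⟩
  have hs0 : 0 < s := by rw [hs]; positivity
  refine ⟨⌈(x - x0) / s - 2⌉₊, fun y p h1 h2 h3 => ?_⟩
  rw [← hs] at h1
  have e1 : gp x0 W k p = x0 + p * s := by rw [hs]; unfold gp; ring
  have e2 : gp x0 W k (p + 1) = x0 + (p + 1) * s := by rw [hs]; unfold gp; push_cast; ring
  rw [e1] at h2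
  rw [e2] at h3
  obtain ⟨h4, h5⟩ := abs_le.1 h1
  rw [Finset.mem_Icc]
  constructor
  · rw [Nat.ceil_le]
    have : (x - x0) / s ≤ p + 2 := by
      rw [div_le_iff₀ hs0]
      nlinarith
    linarith
  · have h6 : ((x - x0) / s - 2) ≤ ⌈(x - x0) / s - 2⌉₊ := Nat.le_ceil _
    have h7 : (p : ℝ) - 1 ≤ (x - x0) / s := by
      rw [le_div_iff₀ hs0]
      nlinarith
    have h8 : (p : ℝ) ≤ ⌈(x - x0) / s - 2⌉₊ + 3 := by linarith
    exact_mod_cast h8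

/-- the cells -/
def cl (x0 W y0 H : ℝ) (n p q : ℕ) : Set ℂ :=
  rc (gp x0 W n p) (gp x0 W n (p + 1)) (gp y0 H n q) (gp y0 H n (q + 1))

theorem cl_sub {x0 W y0 H : ℝ} (hW : 0 ≤ W) (hH : 0 ≤ H) {n p q : ℕ} (hp : p < 2 ^ n) (hq : q < 2 ^ n) :
    cl x0 W y0 H n p q ⊆ rc x0 (x0 + W) y0 (y0 + H) :=
  rc_mono (gp_lo hW _ _) (gp_hi hW (by omega)) (gp_lo hH _ _) (gp_hi hH (by omega))

theorem cl_child {x0 W y0 H : ℝ} (hW : 0 ≤ W) (hH : 0 ≤ H) (n p q a : ℕ) (ha : a < 2) (b : ℕ) (hb : b < 2) :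
    cl x0 W y0 H (n + 1) (2 * p + a) (2 * q + b) ⊆ cl x0 W y0 H n p q := by
  refine rc_mono ?_ ?_ ?_ ?_
  · rw [← gp_even x0 W n p]; exact gp_mono hW _ (by omega)
  · rw [← gp_even x0 W n (p + 1)]; exact gp_mono hW _ (by omega)
  · rw [← gp_even y0 H n q]; exact gp_mono hH _ (by omega)
  · rw [← gp_even y0 H n (q + 1)]; exact gp_mono hH _ (by omega)

theorem bi_cell_four {h : ℂ → ℂ} {x0 W y0 H : ℝ} (hW : 0 ≤ W) (hH : 0 ≤ H)
    (hc : ContinuousOn h (rc x0 (x0 + W) y0 (y0 + H))) {n p q : ℕ} (hp : p < 2 ^ n) (hq : q < 2 ^ n)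
    (V : ℕ → ℕ → ℕ → ℂ)
    (hV : ∀ n p q, V n p q = bi h (gp x0 W n p) (gp x0 W n (p + 1)) (gp y0 H n q) (gp y0 H n (q + 1))) :
    V n p q = V (n + 1) (2 * p) (2 * q) + V (n + 1) (2 * p + 1) (2 * q) +
      V (n + 1) (2 * p) (2 * q + 1) + V (n + 1) (2 * p + 1) (2 * q + 1) := by
  simp only [hV]
  have e1 : ∀ x0 W : ℝ, ∀ p : ℕ, gp x0 W (n + 1) (2 * p + 1 + 1) = gp x0 W n (p + 1) := fun x0 W p => by
    rw [show 2 * p + 1 + 1 = 2 * (p + 1) by ring, gp_even]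
  simp only [e1, gp_even]
  refine bi_four (hc.mono (cl_sub hW hH hp hq)) ?_ ?_ ?_ ?_
  · rw [← gp_even x0 W n p]; exact gp_mono hW _ (by omega)
  · rw [← gp_even x0 W n (p + 1)]; exact gp_mono hW _ (by omega)
  · rw [← gp_even y0 H n q]; exact gp_mono hH _ (by omega)
  · rw [← gp_even y0 H n (q + 1)]; exact gp_mono hH _ (by omega)

theorem bi_cell_le {Λ : ℝ → ℝ} {ρ : ℝ} (hΛ : Slow Λ ρ) {h : ℂ → ℂ} {x0 W y0 H : ℝ} (hW : 0 < W) (hH : 0 < H)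
    (hc : ContinuousOn h (rc x0 (x0 + W) y0 (y0 + H))) {ε δ : ℝ} (hε : 0 ≤ ε)
    (hm : ∀ z ∈ rc x0 (x0 + W) y0 (y0 + H), ∀ w ∈ rc x0 (x0 + W) y0 (y0 + H), dist z w ≤ δ →
      ‖h z - h w‖ ≤ ε * om Λ (dist z w))
    {n p q : ℕ} (hp : p < 2 ^ n) (hq : q < 2 ^ n) (h1 : (W + H) / 2 ^ n ≤ ρ) (h2 : (W + H) / 2 ^ n ≤ δ) :
    ‖bi h (gp x0 W n p) (gp x0 W n (p + 1)) (gp y0 H n q) (gp y0 H n (q + 1))‖ ≤
      ε * ph Λ ((W + H) / 2 ^ n) := by
  have hsub := cl_sub (x0 := x0) (y0 := y0) hW.le hH.le hp hq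
  have hx : gp x0 W n p ≤ gp x0 W n (p + 1) := gp_mono hW.le _ (by omega)
  have hy : gp y0 H n q ≤ gp y0 H n (q + 1) := gp_mono hH.le _ (by omega)
  have hWn : W / 2 ^ n ≤ (W + H) / 2 ^ n := by gcongr; linarith
  have hHn : H / 2 ^ n ≤ (W + H) / 2 ^ n := by gcongr; linarith
  have b := bi_le (h := h) (b := ε * om Λ ((W + H) / 2 ^ n)) hx hy (hc.mono hsub) (fun x hx1 hx2 => ?_)
    (fun y hy1 hy2 => ?_)
  · refine b.trans (le_of_eq ?_)
    rw [ph_eq (by positivity), gp_succ, gp_succ]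
    ring
  · have ed : dist ((x : ℂ) + (gp y0 H n q : ℝ) * I) (x + (gp y0 H n (q + 1) : ℝ) * I) = H / 2 ^ n := by
      rw [dist_eq_norm, gp_succ]
      have : ((x : ℂ) + (gp y0 H n q : ℝ) * I) - (x + ((gp y0 H n q + H / 2 ^ n : ℝ)) * I) =
          -(((H / 2 ^ n : ℝ) : ℂ) * I) := by push_cast; ring
      rw [this, norm_neg, norm_mul, Complex.norm_I, mul_one, Complex.norm_real, Real.norm_eq_abs,
        abs_of_pos (by positivity)]
    refine (hm _ (hsub (mem_rc.2 ⟨⟨hx1, hx2⟩, le_rfl, hy⟩)) _ (hsub (mem_rc.2 ⟨⟨hx1, hx2⟩, hy, le_rfl⟩))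
      (by rw [ed]; linarith)).trans ?_
    rw [ed]
    exact mul_le_mul_of_nonneg_left (om_mono hΛ (by positivity) hHn h1) hε
  · have ed : dist (((gp x0 W n (p + 1) : ℝ) : ℂ) + y * I) ((gp x0 W n p : ℝ) + y * I) = W / 2 ^ n := by
      rw [dist_eq_norm, gp_succ]
      have : (((gp x0 W n p + W / 2 ^ n : ℝ) : ℂ) + y * I) - ((gp x0 W n p : ℝ) + y * I) =
          ((W / 2 ^ n : ℝ) : ℂ) := by push_cast; ring
      rw [this, Complex.norm_real, Real.norm_eq_abs, abs_of_pos (by positivity)]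
    refine (hm _ (hsub (mem_rc.2 ⟨⟨hx, le_rfl⟩, hy1, hy2⟩)) _ (hsub (mem_rc.2 ⟨⟨le_rfl, hx⟩, hy1, hy2⟩))
      (by rw [ed]; linarith)).trans ?_
    rw [ed]
    exact mul_le_mul_of_nonneg_left (om_mono hΛ (by positivity) hWn h1) hε

/-- economic covers of `S` by balls -/
def Cov (Λ : ℝ → ℝ) (S : Set ℂ) (M : ℝ) : Prop :=
  ∀ δ : ℝ, 0 < δ → ∃ (t : Finset ℕ) (x : ℕ → ℂ) (d : ℕ → ℝ), (∀ i ∈ t, 0 < d i ∧ d i ≤ δ) ∧
    (∀ z ∈ S, ∃ i ∈ t, dist z (x i) ≤ 2 * d i) ∧ ∑ i ∈ t, ph Λ (d i) ≤ M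

theorem bi_bound {Λ : ℝ → ℝ} {ρ : ℝ} (hΛ : Slow Λ ρ) {h : ℂ → ℂ} {x0 x1 y0 y1 : ℝ} (hx01 : x0 < x1) (hy01 : y0 < y1)
    (hc : ContinuousOn h (rc x0 x1 y0 y1)) {ε δ : ℝ} (hε : 0 ≤ ε) (hδ : 0 < δ)
    (hmod : ∀ z ∈ rc x0 x1 y0 y1, ∀ w ∈ rc x0 x1 y0 y1, dist z w ≤ δ →
      ‖h z - h w‖ ≤ ε * om Λ (dist z w)) {K : Set ℂ} (hd : DifferentiableOn ℂ h (rc x0 x1 y0 y1 \ K))
    {M : ℝ} (hcov : Cov Λ (K ∩ rc x0 x1 y0 y1) M) : ‖bi h x0 x1 y0 y1‖ ≤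
      ε * (16 * (4 * ((x1 - x0) + (y1 - y0)) / min (x1 - x0) (y1 - y0)) ^ (7/4 : ℝ) * |M|) := by
  classical
  obtain ⟨W, hWe⟩ : ∃ W, W = x1 - x0 := ⟨_, rfl⟩
  obtain ⟨H, hHe⟩ : ∃ H, H = y1 - y0 := ⟨_, rfl⟩
  rw [← hWe, ← hHe]
  have hW : 0 < W := by linarith
  have hH : 0 < H := by linarith
  obtain rfl : x1 = x0 + W := by linarith
  obtain rfl : y1 = y0 + H := by linarith
  obtain ⟨D, hD⟩ : ∃ D, D = W + H := ⟨_, rfl⟩
  obtain ⟨m, hmm⟩ : ∃ m, m = min W H := ⟨_, rfl⟩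
  have hm0 : 0 < m := by rw [hmm]; exact lt_min hW hH
  have hmD : m ≤ D := by rw [hmm, hD]; exact (min_le_left _ _).trans (by linarith)
  have hD0 : 0 < D := by linarith
  obtain ⟨A, hA⟩ : ∃ A, A = 4 * D / m := ⟨_, rfl⟩
  have hA1 : 1 ≤ A := by
    rw [hA, one_le_div hm0]; linarith
  rw [← hD, ← hmm, ← hA]
  obtain ⟨τ, hτ⟩ : ∃ τ, τ = min (min δ ρ / A) (m / 2) := ⟨_, rfl⟩
  have hρ := hΛ.pos
  have hτ0 : 0 < τ := by
    rw [hτ]
    exact lt_min (div_pos (lt_min hδ hρ) (by linarith)) (by linarith)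
  obtain ⟨t, x, d, ht, hcv, hsum⟩ := hcov τ hτ0
  -- the levels
  have hk : ∀ i : ℕ, ∃ k : ℕ, i ∈ t → 2 * d i ≤ m / 2 ^ k ∧ D / 2 ^ k ≤ A * d i := by
    intro i
    by_cases hi : i ∈ t
    · obtain ⟨h1, h2⟩ := ht i hi
      have h3 : 2 * d i ≤ m := by
        have : d i ≤ m / 2 := h2.trans (by rw [hτ]; exact min_le_right _ _)
        linarith
      obtain ⟨k, hk1, hk2⟩ := exists_nat_pow_near (x := m / (2 * d i)) (y := (2 : ℝ))
        ((one_le_div (by linarith)).2 h3) (by norm_num)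
      refine ⟨k, fun _ => ⟨?_, ?_⟩⟩
      · rw [le_div_iff₀ (by positivity)]
        rw [le_div_iff₀ (by linarith)] at hk1
        linarith
      · rw [div_lt_iff₀ (by linarith), pow_succ] at hk2
        rw [hA, div_le_iff₀ (by positivity)]
        have : D * m ≤ 4 * D * d i * 2 ^ k := by nlinarith
        have e : 4 * D / m * d i * 2 ^ k = 4 * D * d i * 2 ^ k / m := by ring
        rw [e, le_div_iff₀ hm0]
        exact this
    · exact ⟨0, fun h => absurd h hi⟩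
  choose k hk using hk
  have ha : ∀ i : ℕ, ∃ a : ℕ, ∀ (y : ℝ) (p : ℕ), |y - (x i).re| ≤ W / 2 ^ (k i) → gp x0 W (k i) p ≤ y →
      y ≤ gp x0 W (k i) (p + 1) → p ∈ Finset.Icc a (a + 3) := fun i => gp_box hW x0 (x i).re (k i)
  have hb : ∀ i : ℕ, ∃ a : ℕ, ∀ (y : ℝ) (p : ℕ), |y - (x i).im| ≤ H / 2 ^ (k i) → gp y0 H (k i) p ≤ y →
      y ≤ gp y0 H (k i) (p + 1) → p ∈ Finset.Icc a (a + 3) := fun i => gp_box hH y0 (x i).im (k i)
  choose a ha using ha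
  choose b hb using hb
  obtain ⟨F, hF⟩ : ∃ F : ℕ → Finset (ℕ × ℕ × ℕ), ∀ i, F i = ({k i} : Finset ℕ) ×ˢ
      (Finset.Icc (a i) (a i + 3) ×ˢ Finset.Icc (b i) (b i + 3)) := ⟨_, fun _ => rfl⟩
  have hFk : ∀ i, ∀ j ∈ F i, j.1 = k i := fun i j hj => by
    rw [hF, Finset.mem_product, Finset.mem_singleton] at hj
    exact hj.1
  have hFc : ∀ i, (F i).card = 16 := fun i => by
    rw [hF]
    simp only [Finset.card_product, Finset.card_singleton, Nat.card_Icc]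
    have e1 : a i + 3 + 1 - a i = 4 := by omega
    have e2 : b i + 3 + 1 - b i = 4 := by omega
    rw [e1, e2]
  obtain ⟨c, hcc⟩ : ∃ c : ℕ → ℝ, ∀ n, c n = ε * |ph Λ (D / 2 ^ n)| := ⟨_, fun _ => rfl⟩
  have hc0 : ∀ n, 0 ≤ c n := fun n => by rw [hcc]; positivity
  have hlev : ∀ i ∈ t, D / 2 ^ (k i) ≤ A * d i ∧ A * d i ≤ min δ ρ := by
    intro i hi
    refine ⟨(hk i hi).2, ?_⟩
    have h1 : d i ≤ min δ ρ / A := (ht i hi).2.trans (by rw [hτ]; exact min_le_left _ _)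
    rw [le_div_iff₀ (by linarith)] at h1
    linarith
  have hck : ∀ i ∈ t, c (k i) ≤ ε * (A ^ (7/4 : ℝ) * ph Λ (d i)) := by
    intro i hi
    obtain ⟨h1, h2⟩ := hlev i hi
    have hdi := (ht i hi).1
    have h3 : A * d i ≤ ρ := h2.trans (min_le_right _ _)
    have h4 : 0 < D / 2 ^ (k i) := by positivity
    rw [hcc, abs_of_pos (ph_pos hΛ h4 (h1.trans h3))]
    refine mul_le_mul_of_nonneg_left ?_ hε
    refine (ph_mono hΛ h4 h1 h3).trans ?_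
    have h5 := ph_up hΛ hdi (by nlinarith : d i ≤ A * d i) h3
    rwa [mul_div_cancel_right₀ _ hdi.ne'] at h5
  obtain ⟨V, hV⟩ : ∃ V : ℕ → ℕ → ℕ → ℂ, ∀ n p q, V n p q =
      bi h (gp x0 W n p) (gp x0 W n (p + 1)) (gp y0 H n q) (gp y0 H n (q + 1)) := ⟨_, fun _ _ _ => rfl⟩
  obtain ⟨N, hN⟩ : ∃ N : ℕ, ∀ j ∈ t.biUnion F, j.1 < N := by
    refine ⟨(t.biUnion F).sup (fun j => j.1) + 1, fun j hj => ?_⟩
    have := Finset.le_sup (f := fun j : ℕ × ℕ × ℕ => j.1) hj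
    exact Nat.lt_succ_of_le this
  have T := tree (V := V) (c := c) (cell := cl x0 W y0 H) (K := K) hc0
    (fun n p q hp hq => bi_cell_four hW.le hH.le hc hp hq V hV)
    (fun n p q hp hq hK => by
      rw [hV]
      exact bi_zero (gp_mono hW.le _ (by omega)) (gp_mono hH.le _ (by omega))
        (hd.mono fun z hz => ⟨cl_sub hW.le hH.le hp hq hz, fun hzK => hK z hzK hz⟩))
    (fun n p q a ha b hb => cl_child hW.le hH.le n p q a ha b hb)
    (t.biUnion F)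
    (fun n p q hJ hp hq => by
      obtain ⟨i, hi, hj⟩ := Finset.mem_biUnion.1 hJ
      have hn : n = k i := hFk i _ hj
      subst hn
      obtain ⟨h1, h2⟩ := hlev i hi
      have h3 : D / 2 ^ (k i) ≤ ρ := (h1.trans h2).trans (min_le_right _ _)
      have h4 : D / 2 ^ (k i) ≤ δ := (h1.trans h2).trans (min_le_left _ _)
      rw [hV, hcc, abs_of_pos (ph_pos hΛ (by positivity) h3), hD]
      rw [hD] at h3 h4
      exact bi_cell_le hΛ hW hH hc hε hmod hp hq h3 h4)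
    N hN N 0 0 0 (by omega) (by norm_num) (by norm_num)
    (fun z hzK hzc => by
      have hzQ : z ∈ rc x0 (x0 + W) y0 (y0 + H) := cl_sub hW.le hH.le (by norm_num) (by norm_num) hzc
      obtain ⟨i, hi, hzi⟩ := hcv z ⟨hzK, hzQ⟩
      obtain ⟨p', hp', h1, h2⟩ := gp_exists (W := W) hzQ.1.1 hzQ.1.2 (k i)
      obtain ⟨q', hq', h3, h4⟩ := gp_exists (W := H) hzQ.2.1 hzQ.2.2 (k i)
      refine ⟨k i, Nat.zero_le _, ⟨p', q', hp', hq', ⟨h1, h2⟩, h3, h4⟩, fun p'' q'' _ _ hz => ?_⟩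
      have h5 : dist z (x i) ≤ m / 2 ^ (k i) := hzi.trans (hk i hi).1
      have h6 : |z.re - (x i).re| ≤ W / 2 ^ (k i) := by
        have e1 := Complex.abs_re_le_norm (z - x i)
        rw [← dist_eq_norm, Complex.sub_re] at e1
        refine (e1.trans h5).trans ?_
        have : m ≤ W := by rw [hmm]; exact min_le_left _ _
        gcongr
      have h7 : |z.im - (x i).im| ≤ H / 2 ^ (k i) := by
        have e1 := Complex.abs_im_le_norm (z - x i)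
        rw [← dist_eq_norm, Complex.sub_im] at e1
        refine (e1.trans h5).trans ?_
        have : m ≤ H := by rw [hmm]; exact min_le_right _ _
        gcongr
      refine Finset.mem_biUnion.2 ⟨i, hi, ?_⟩
      rw [hF, Finset.mem_product, Finset.mem_singleton, Finset.mem_product]
      exact ⟨rfl, ha i _ _ h6 hz.1.1 hz.1.2, hb i _ _ h7 hz.2.1 hz.2.2⟩)
  have e0 : V 0 0 0 = bi h x0 (x0 + W) y0 (y0 + H) := by
    rw [hV]; simp [gp]
  rw [e0] at T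
  refine T.trans ((wt_le _ hc0 _ _ _).trans ?_)
  refine (sum_biUnion_le' t F (fun j => c j.1) (fun j => hc0 _)).trans ?_
  calc ∑ i ∈ t, ∑ j ∈ F i, c j.1 ≤ ∑ i ∈ t, 16 * (ε * (A ^ (7/4 : ℝ) * ph Λ (d i))) := by
        refine Finset.sum_le_sum fun i hi => ?_
        rw [Finset.sum_congr rfl fun j hj => by rw [hFk i j hj], Finset.sum_const, hFc, nsmul_eq_mul]
        push_cast
        linarith [hck i hi]
    _ = ε * (16 * A ^ (7/4 : ℝ) * ∑ i ∈ t, ph Λ (d i)) := by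
        rw [Finset.mul_sum, Finset.mul_sum]
        exact Finset.sum_congr rfl fun i _ => by ring
    _ ≤ ε * (16 * A ^ (7/4 : ℝ) * |M|) := by
        have := hsum.trans (le_abs_self M)
        gcongr

/-- **Removability** of sets with economic covers -/
theorem remov_gen {Λ : ℝ → ℝ} {ρ : ℝ} (hΛ : Slow Λ ρ) {K : Set ℂ} {U : Set ℂ} (hU : IsOpen U) {h : ℂ → ℂ}
    (hm : ∀ κ : ℝ, 0 < κ → ∃ ε δ M : ℝ, 0 ≤ ε ∧ 0 < δ ∧ Cov Λ K M ∧ ε * |M| ≤ κ ∧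
      ∀ z ∈ U, ∀ w ∈ U, dist z w ≤ δ → ‖h z - h w‖ ≤ ε * om Λ (dist z w))
    (hd : DifferentiableOn ℂ h (U \ K)) : DifferentiableOn ℂ h U := by
  have hc : ContinuousOn h U := by
    obtain ⟨ε, δ, M, hε, hδ, -, -, h1⟩ := hm 1 one_pos
    refine Metric.continuousOn_iff.2 fun z hz η hη => ?_
    obtain ⟨δ', hδ', hδρ, h2⟩ := om_small hΛ (show 0 < η / (ε + 1) / 2 by positivity)
    refine ⟨min δ δ', lt_min hδ hδ', fun w hw hwz => ?_⟩
    rcases (dist_nonneg (x := w) (y := z)).eq_or_lt with h0 | h0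
    · have : w = z := dist_eq_zero.1 h0.symm
      rw [this, dist_self]
      exact hη
    · have h3 := h1 w hw z hz (hwz.le.trans (min_le_left _ _))
      have h4 := h2 _ h0 (hwz.le.trans (min_le_right _ _))
      have h5 := om_pos hΛ h0 ((hwz.le.trans (min_le_right _ _)).trans hδρ)
      rw [dist_eq_norm]
      calc ‖h w - h z‖ ≤ ε * om Λ (dist w z) := h3
        _ ≤ (ε + 1) * (η / (ε + 1) / 2) := by
            refine mul_le_mul (by linarith) h4 h5.le (by linarith)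
        _ = η / 2 := by field_simp
        _ < η := by linarith
  refine morera hU hc fun x0 x1 y0 y1 hx hy hsub => ?_
  obtain ⟨B, hB⟩ : ∃ B, B = 16 * (4 * ((x1 - x0) + (y1 - y0)) / min (x1 - x0) (y1 - y0)) ^ (7/4 : ℝ) := ⟨_, rfl⟩
  have hB0 : 0 ≤ B := by
    rw [hB]
    have : 0 < min (x1 - x0) (y1 - y0) := lt_min (by linarith) (by linarith)
    have h3 : 0 ≤ 4 * ((x1 - x0) + (y1 - y0)) / min (x1 - x0) (y1 - y0) := by
      apply div_nonneg _ this.le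
      linarith
    positivity
  by_contra hne
  obtain ⟨N, hN⟩ : ∃ N, N = ‖bi h x0 x1 y0 y1‖ := ⟨_, rfl⟩
  have hpos : 0 < N := by rw [hN]; exact norm_pos_iff.2 hne
  obtain ⟨ε, δ, M, hε, hδ, hcov, hκ, h1⟩ := hm (N / (2 * (B + 1))) (by positivity)
  have key := bi_bound hΛ hx hy (hc.mono hsub) hε hδ (fun z hz w hw => h1 z (hsub hz) w (hsub hw)) (K := K)
    (hd.mono fun z hz => ⟨hsub hz.1, hz.2⟩) (M := M) (fun δ hδ => by
      obtain ⟨t, x, d, h1, h2, h3⟩ := hcov δ hδ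
      exact ⟨t, x, d, h1, fun z hz => h2 z hz.1, h3⟩)
  rw [← hB, ← hN] at key
  have h2 : ε * (B * |M|) ≤ N / (2 * (B + 1)) * B := by
    calc ε * (B * |M|) = (ε * |M|) * B := by ring
      _ ≤ N / (2 * (B + 1)) * B := mul_le_mul_of_nonneg_right hκ hB0
  have h3 : N / (2 * (B + 1)) * B ≤ N / 2 := by
    rw [div_mul_eq_mul_div, div_le_div_iff₀ (by positivity) (by norm_num)]
    nlinarith
  linarith

end Pool.Agent.N481.PC
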