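import Pool.Agent.Y995.HG.UpS
import Pool.Agent.N481.PC.Cover
import Pool.Agent.N481.PC.Circ

/-!
Removability for the limits of the exploration path.
-/

set_option autoImplicit false

namespace Pool.Agent.N481.PC

open H984N MeasureTheory Filter Topology Set
open Pool.Agent.Y995.HG (gm ga av Cl Cl_pos one_set)
open scoped ENNReal unitInterval

theorem ga_eq (r : ℝ) : ga r = ph lam2 r := rfl

theorem gm_ofReal {s : ℝ} (hs : 0 ≤ s) : gm (ENNReal.ofReal s) = ENNReal.ofReal (ph lam2 s) := by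
  unfold gm
  rw [ENNReal.toReal_ofReal hs, ga_eq]

/-- removability for small moduli -/
theorem rem_small {p : X} {C : ℝ}
    (hC : ∀ S : Set I, Measure.mkMetric gm (p.1 '' S) ≤ ENNReal.ofReal (C * p.2) * volume S)
    {U : Set ℂ} (hU : IsOpen U) {h : ℂ → ℂ}
    (hm : ∀ ε : ℝ, 0 < ε → ∃ δ : ℝ, 0 < δ ∧ ∀ z ∈ U, ∀ w ∈ U, dist z w < δ →
      ‖h z - h w‖ ≤ ε * om lam2 (dist z w))
    (hd : DifferentiableOn ℂ h (U \ range p.1)) : DifferentiableOn ℂ h U := by
  have h1 : Measure.mkMetric gm (range p.1) ≤ ENNReal.ofReal |C * p.2| := by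
    have := hC univ
    rw [image_univ] at this
    refine this.trans ?_
    rw [measure_univ, mul_one]
    exact ENNReal.ofReal_le_ofReal (le_abs_self _)
  have hK : IsCompact (range p.1) := isCompact_range p.1.continuous
  have hcov := cov_of_mkMetric slow2 (g := gm) (fun s hs _ => (gm_ofReal hs.le).ge) hK (abs_nonneg _) one_pos h1
  refine remov_gen slow2 hU (K := range p.1) (fun κ hκ => ?_) hd
  have hM : 0 < |C * p.2| + 1 := by positivity
  obtain ⟨δ, hδ, h2⟩ := hm (κ / (|C * p.2| + 1)) (by positivity)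
  refine ⟨κ / (|C * p.2| + 1), δ / 2, |C * p.2| + 1, by positivity, half_pos hδ, hcov, ?_, fun z hz w hw hzw =>
    h2 z hz w hw (by linarith)⟩
  rw [abs_of_pos hM, div_mul_cancel₀ _ hM.ne']

/-- removability of null sets -/
theorem rem_null {p : X} {C : ℝ}
    (hC : ∀ S : Set I, Measure.mkMetric gm (p.1 '' S) ≤ ENNReal.ofReal (C * p.2) * volume S)
    {S : Set I} (hS : IsClosed S) (hS0 : volume S = 0)
    {U : Set ℂ} (hU : IsOpen U) {h : ℂ → ℂ} {A δ : ℝ} (hδ : 0 < δ)
    (hm : ∀ z ∈ U, ∀ w ∈ U, dist z w < δ → ‖h z - h w‖ ≤ A * om lam2 (dist z w))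
    (hd : DifferentiableOn ℂ h (U \ p.1 '' S)) : DifferentiableOn ℂ h U := by
  have h1 : Measure.mkMetric gm (p.1 '' S) ≤ ENNReal.ofReal 0 := by
    have := hC S
    rw [hS0, mul_zero] at this
    rwa [ENNReal.ofReal_zero]
  have hK : IsCompact (p.1 '' S) := hS.isCompact.image p.1.continuous
  refine remov_gen slow2 hU (K := p.1 '' S) (fun κ hκ => ?_) hd
  obtain ⟨η, hη⟩ : ∃ η, η = κ / (|A| + 1) := ⟨_, rfl⟩
  have hη0 : 0 < η := by rw [hη]; positivity
  have hcov := cov_of_mkMetric slow2 (g := gm) (fun s hs _ => (gm_ofReal hs.le).ge) hK le_rfl hη0 h1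
  rw [zero_add] at hcov
  have hρ := slow2.pos
  refine ⟨|A|, min (δ / 2) (Real.exp (-Real.exp 1)), η, abs_nonneg _, lt_min (half_pos hδ) hρ, hcov, ?_,
    fun z hz w hw hzw => ?_⟩
  · rw [abs_of_pos hη0, hη]
    have : |A| * (κ / (|A| + 1)) ≤ (|A| + 1) * (κ / (|A| + 1)) := by
      have : 0 < κ / (|A| + 1) := by positivity
      nlinarith
    rwa [mul_div_cancel₀ _ (by positivity)] at this
  · have h3 := hm z hz w hw (by
      have := hzw.trans (min_le_left _ _)
      linarith)
    refine h3.trans ?_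
    rcases (dist_nonneg (x := z) (y := w)).eq_or_lt with h0 | h0
    · rw [← h0]
      unfold om
      rw [Real.zero_rpow (by norm_num), zero_mul, mul_zero, mul_zero]
    · have := om_pos slow2 h0 (hzw.trans (min_le_right _ _))
      exact mul_le_mul_of_nonneg_right (le_abs_self _) this.le

/-- the image of a set of times of positive measure is not removable -/
theorem not_rem {l : ℝ} (hl : 0 < l) {p : X} (hp : 0 < p.2)
    (h : ∀ᵐ t : I, ∀ᶠ j : ℕ in atTop, p.2 *
      (volume {u : I | dist (p.1 u) (p.1 t) ≤ ((1:ℝ)/2) ^ j}).toReal < 2 * av l j)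
    {S : Set I} (hS : IsClosed S) (hS0 : volume S ≠ 0) :
    ∃ g : ℂ → ℂ, (∃ A δ : ℝ, 0 < δ ∧ ∀ z w : ℂ, dist z w < δ → ‖g z - g w‖ ≤ A * om lam2 (dist z w)) ∧
      DifferentiableOn ℂ g (p.1 '' S)ᶜ ∧ Tendsto g (cocompact ℂ) (𝓝 0) ∧ ¬ Differentiable ℂ g := by
  obtain ⟨G, hG⟩ : ∃ G : ℕ → Set I, G = fun j0 => {t | ∀ j : ℕ, j0 ≤ j → p.2 *
      (volume {u : I | dist (p.1 u) (p.1 t) ≤ ((1:ℝ)/2) ^ j}).toReal < 2 * av l j} := ⟨_, rfl⟩
  have hmono : ∀ a b : ℕ, a ≤ b → G a ⊆ G b := by
    intro a b hab u hu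
    rw [hG] at hu ⊢
    exact fun j hj => hu j (hab.trans hj)
  have hex : ∃ j1 : ℕ, volume (G j1 ∩ S) ≠ 0 := by
    by_contra hcon
    push Not at hcon
    refine hS0 ?_
    have h1 : volume (⋃ j, G j ∩ S) = 0 := measure_iUnion_null hcon
    rw [← h1]
    refine measure_congr ?_
    filter_upwards [h] with u hu
    rw [eventually_atTop] at hu
    obtain ⟨j0, hj0⟩ := hu
    have : u ∈ S ↔ u ∈ ⋃ j, G j ∩ S := by
      rw [mem_iUnion]
      constructor
      · intro h1
        refine ⟨j0, ?_, h1⟩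
        rw [hG]
        exact hj0
      · rintro ⟨_, h1⟩
        exact h1.2
    exact propext this
  obtain ⟨j1, hj1⟩ := hex
  obtain ⟨j0, hj0⟩ : ∃ j0, j0 = max j1 3 := ⟨_, rfl⟩
  have hj3 : 3 ≤ j0 := by omega
  have hpos : volume (G j0 ∩ S) ≠ 0 := fun h0 =>
    hj1 (measure_mono_null (inter_subset_inter_left _ (hmono j1 j0 (by omega))) h0)
  obtain ⟨m, hm⟩ : ∃ m : Measure I, m = ENNReal.ofReal p.2 • volume.restrict (G j0 ∩ S) := ⟨_, rfl⟩
  have hfin : IsFiniteMeasure m := by
    rw [hm]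
    constructor
    rw [Measure.smul_apply, smul_eq_mul]
    exact ENNReal.mul_lt_top ENNReal.ofReal_lt_top (measure_lt_top _ _)
  have hmap : ∀ E : Set I, MeasurableSet E → m E = ENNReal.ofReal p.2 * volume (E ∩ (G j0 ∩ S)) := fun E hE => by
    rw [hm, Measure.smul_apply, smul_eq_mul, Measure.restrict_apply hE]
  have hρ := slow2.pos
  obtain ⟨R, hR⟩ : ∃ R, R = min (Real.exp (-Real.exp 1)) (((1:ℝ)/2) ^ j0) / 2 := ⟨_, rfl⟩
  have hR0 : 0 < R := by
    rw [hR]
    have : 0 < min (Real.exp (-Real.exp 1)) (((1:ℝ)/2) ^ j0) := lt_min hρ (by positivity)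
    linarith
  have hR1 : 2 * R ≤ Real.exp (-Real.exp 1) := by
    have := min_le_left (Real.exp (-Real.exp 1)) (((1:ℝ)/2) ^ j0)
    linarith
  have hR2 : 2 * R ≤ ((1:ℝ)/2) ^ j0 := by
    have := min_le_right (Real.exp (-Real.exp 1)) (((1:ℝ)/2) ^ j0)
    linarith
  have hCl := Cl_pos hl
  have hgr : Gr m p.1 lam2 (4 * Cl l) R := by
    intro z r hr hrR
    have hmeas : MeasurableSet {s | dist (p.1 s) z ≤ r} :=
      measurableSet_le (p.1.continuous.dist continuous_const).measurable measurable_const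
    rw [hmap _ hmeas]
    have h1 : Metric.ediam (Metric.closedBall z r) ≤ ENNReal.ofReal (2 * r) := by
      refine Metric.ediam_le fun x hx y hy => ?_
      rw [edist_dist]
      refine ENNReal.ofReal_le_ofReal ?_
      have h2 := dist_triangle_right x y z
      have h3 := Metric.mem_closedBall.1 hx
      have h4 := Metric.mem_closedBall.1 hy
      linarith
    have h2 := one_set hl hp hj3 (G := G j0) (fun t ht => by rw [hG] at ht; exact ht) (E := Metric.closedBall z r)
      (h1.trans (ENNReal.ofReal_le_ofReal (by linarith)))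
    have h3 : volume ({s | dist (p.1 s) z ≤ r} ∩ (G j0 ∩ S)) ≤ volume (p.1 ⁻¹' Metric.closedBall z r ∩ G j0) := by
      refine measure_mono ?_
      rintro u ⟨hu, hu1, -⟩
      exact ⟨hu, hu1⟩
    refine (mul_le_mul_right h3 _).trans (h2.trans ?_)
    have h4 : gm (Metric.ediam (Metric.closedBall z r)) ≤ ENNReal.ofReal (4 * ph lam2 r) := by
      obtain ⟨d, hd⟩ : ∃ d, d = (Metric.ediam (Metric.closedBall z r)).toReal := ⟨_, rfl⟩
      have hd2 : d ≤ 2 * r := by
        rw [hd]
        exact ENNReal.toReal_le_of_le_ofReal (by linarith) h1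
      have hd0 : 0 ≤ d := by rw [hd]; exact ENNReal.toReal_nonneg
      unfold gm
      rw [← hd, ga_eq]
      refine ENNReal.ofReal_le_ofReal ?_
      have h5 := ph_two slow2 hr (by linarith)
      rcases hd0.eq_or_lt with h0 | h0
      · rw [← h0]
        have := ph_pos slow2 hr (by linarith)
        unfold ph at this ⊢
        rw [Real.zero_rpow (by norm_num), zero_mul]
        linarith
      · exact (ph_mono slow2 h0 hd2 (by linarith)).trans h5
    calc ENNReal.ofReal (Cl l) * ⨆ _ : (Metric.closedBall z r).Nonempty, gm (Metric.ediam (Metric.closedBall z r)) ≤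
          ENNReal.ofReal (Cl l) * ENNReal.ofReal (4 * ph lam2 r) := mul_le_mul_right (iSup_le fun _ => h4) _
      _ = ENNReal.ofReal (4 * Cl l * ph lam2 r) := by
          rw [← ENNReal.ofReal_mul hCl.le]
          congr 1
          ring
  have hf := p.1.continuous
  obtain ⟨B, hB⟩ : ∃ B, ∀ s, ‖p.1 s‖ ≤ B := ⟨‖p.1‖, fun s => p.1.norm_coe_le_norm s⟩
  refine ⟨ct m p.1, ?_, ?_, (ct_inf hf hB).1, ct_not_entire hf hB ?_⟩
  · obtain ⟨δ, hδ, h5⟩ := ct_mod slow2 (by positivity : 0 < 4 * Cl l) hR0 (by linarith) hf hgr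
    exact ⟨93 * (4 * Cl l), δ, hδ, fun z w hzw => h5 z w hzw.le⟩
  · refine ct_diffOn hf hS ?_
    rw [hmap _ hS.isOpen_compl.measurableSet]
    have : Sᶜ ∩ (G j0 ∩ S) = ∅ := by
      ext u
      simp only [mem_inter_iff, mem_compl_iff, mem_empty_iff_false, iff_false]
      tauto
    rw [this, measure_empty, mul_zero]
  · rw [hmap _ MeasurableSet.univ, univ_inter]
    exact mul_ne_zero (by rw [Ne, ENNReal.ofReal_eq_zero]; linarith) hpos

/-- the complex field of the natural time spent on an arc -/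
noncomputable def fld (p : X) (a b : I) (w : ℂ) : ℂ := (p.2 : ℂ) * ∫ s in Icc a b, (w - p.1 s)⁻¹

theorem fld_main {p : X} (hp : 0 < p.2) {c C : ℝ} (hc : 0 < c) (hC : 0 < C)
    (h : ∀ a b : I, a < b → ∃ r0 : ℝ, 0 < r0 ∧ ∀ r : ℝ, 0 < r → r < r0 →
            (∃ z : ℂ, c * (r ^ (7/4 : ℝ) * Real.log (1 / r) ^ (1/8 : ℝ)) ≤
              p.2 * (volume {s : I | (a ≤ s ∧ s ≤ b) ∧ dist (p.1 s) z ≤ r}).toReal) ∧
            (∀ z : ℂ, p.2 * (volume {s : I | dist (p.1 s) z ≤ r}).toReal ≤
              C * (r ^ (7/4 : ℝ) * Real.log (1 / r) ^ (1/8 : ℝ)))) (a b : I) (hab : a < b) :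
    (∃ r0 : ℝ, 0 < r0 ∧ ∀ r : ℝ, 0 < r → r < r0 →
      (∀ z w : ℂ, dist z w = r → ‖fld p a b z - fld p a b w‖ ≤
        93 * C * (r ^ (3/4 : ℝ) * Real.log (1 / r) ^ (1/8 : ℝ))) ∧
      (∃ z w : ℂ, dist z w = r ∧ c / 8 * (r ^ (3/4 : ℝ) * Real.log (1 / r) ^ (1/8 : ℝ)) ≤
        ‖fld p a b z - fld p a b w‖)) ∧
    (∀ z : ℂ, AnalyticAt ℂ (fld p a b) z ↔ z ∉ p.1 '' Icc a b) ∧
    Tendsto (fld p a b) (cocompact ℂ) (𝓝 0) := by
  obtain ⟨m, hm⟩ : ∃ m : Measure I, m = ENNReal.ofReal p.2 • volume.restrict (Icc a b) := ⟨_, rfl⟩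
  have hfin : IsFiniteMeasure m := by
    rw [hm]
    constructor
    rw [Measure.smul_apply, smul_eq_mul]
    exact ENNReal.mul_lt_top ENNReal.ofReal_lt_top (measure_lt_top _ _)
  have hmap : ∀ E : Set I, MeasurableSet E → m E = ENNReal.ofReal p.2 * volume (E ∩ Icc a b) := fun E hE => by
    rw [hm, Measure.smul_apply, smul_eq_mul, Measure.restrict_apply hE]
  have hct : fld p a b = ct m p.1 := by
    funext w
    unfold fld ct
    rw [hm, integral_smul_measure, ENNReal.toReal_ofReal hp.le, Complex.real_smul]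
  have hf := p.1.continuous
  obtain ⟨B, hB⟩ : ∃ B, ∀ s, ‖p.1 s‖ ≤ B := ⟨‖p.1‖, fun s => p.1.norm_coe_le_norm s⟩
  obtain ⟨r0, hr0, h1⟩ := h a b hab
  have hρ := slow1.pos
  have he : Real.exp (-1) ≤ 1 := slow1.le1
  obtain ⟨R, hR⟩ : ∃ R, R = min (Real.exp (-1)) r0 / 2 := ⟨_, rfl⟩
  have hR0 : 0 < R := by
    rw [hR]
    have : 0 < min (Real.exp (-1)) r0 := lt_min hρ hr0
    linarith
  have hR1 : 2 * R ≤ Real.exp (-1) := by
    have := min_le_left (Real.exp (-1)) r0
    linarith
  have hR2 : 2 * R ≤ r0 := by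
    have := min_le_right (Real.exp (-1)) r0
    linarith
  have hvr : ∀ E : Set I, MeasurableSet E → (m E).toReal = p.2 * (volume (E ∩ Icc a b)).toReal := fun E hE => by
    rw [hmap E hE, ENNReal.toReal_mul, ENNReal.toReal_ofReal hp.le]
  have hgr : Gr m p.1 lam1 C R := by
    intro z r hr hrR
    have hmeas : MeasurableSet {s | dist (p.1 s) z ≤ r} :=
      measurableSet_le (p.1.continuous.dist continuous_const).measurable measurable_const
    rw [← ENNReal.ofReal_toReal (measure_ne_top m _), hvr _ hmeas]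
    refine ENNReal.ofReal_le_ofReal ?_
    refine le_trans (mul_le_mul_of_nonneg_left ?_ hp.le) ((h1 r hr (by linarith)).2 z)
    exact ENNReal.toReal_mono (measure_ne_top _ _) (measure_mono inter_subset_left)
  have hRρ : R ≤ Real.exp (-1) := by linarith
  rw [hct]
  refine ⟨?_, fun z => ⟨fun hz hzf => ?_, fun hz => ?_⟩, (ct_inf hf hB).1⟩
  · obtain ⟨δ, hδ, h5⟩ := ct_mod slow1 hC hR0 hRρ hf hgr
    refine ⟨min δ R, lt_min hδ hR0, fun r hr hrr => ⟨fun z w hzw => ?_, ?_⟩⟩
    · have := h5 z w (by rw [hzw]; exact (hrr.trans_le (min_le_left _ _)).le)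
      rw [hzw] at this
      exact this
    · have hrR : r < R := hrr.trans_le (min_le_right _ _)
      obtain ⟨z, hz⟩ := (h1 (r / 2) (by linarith) (by linarith)).1
      obtain ⟨w, hw, h6⟩ := ct_low slow1 hC hR0 hRρ hf hgr z hr
      refine ⟨w, z, hw, le_trans ?_ h6⟩
      have hmeas : MeasurableSet {s | dist (p.1 s) z < r} :=
        measurableSet_lt (p.1.continuous.dist continuous_const).measurable measurable_const
      have h7 : c * ph lam1 (r / 2) ≤ (m {s | dist (p.1 s) z < r}).toReal := by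
        rw [hvr _ hmeas]
        refine le_trans hz (mul_le_mul_of_nonneg_left ?_ hp.le)
        refine ENNReal.toReal_mono (measure_ne_top _ _) (measure_mono ?_)
        rintro u ⟨⟨hu1, hu2⟩, hu3⟩
        refine ⟨?_, hu1, hu2⟩
        show dist (p.1 u) z < r
        linarith
      have h8 : ph lam1 r ≤ 4 * ph lam1 (r / 2) := by
        have := ph_two slow1 (show 0 < r / 2 by linarith) (by linarith)
        rwa [show 2 * (r / 2) = r by ring] at this
      have h9 : c / 8 * om lam1 r ≤ (m {s | dist (p.1 s) z < r}).toReal / (2 * r) := by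
        rw [om_eq hr, le_div_iff₀ (by linarith)]
        calc c / 8 * (ph lam1 r / r) * (2 * r) = c / 4 * ph lam1 r := by field_simp; ring
          _ ≤ c / 4 * (4 * ph lam1 (r / 2)) := by gcongr
          _ = c * ph lam1 (r / 2) := by ring
          _ ≤ _ := h7
      exact h9
  · obtain ⟨s0, hs0, rfl⟩ := hzf
    rw [Complex.analyticAt_iff_eventually_differentiableAt, Metric.eventually_nhds_iff_ball] at hz
    obtain ⟨ε, hε, hd⟩ := hz
    have h2 := ct_sing slow1 hC.le hR0 hRρ hf hgr (z := p.1 s0) (r := ε)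
      (fun w hw => (hd w hw).differentiableWithinAt) (half_pos hε) (half_lt_self hε)
    have hmeas : MeasurableSet {s | dist (p.1 s) (p.1 s0) < ε / 2} :=
      measurableSet_lt (p.1.continuous.dist continuous_const).measurable measurable_const
    rw [hmap _ hmeas, mul_eq_zero] at h2
    rcases h2 with h2 | h2
    · rw [ENNReal.ofReal_eq_zero] at h2
      linarith
    · have hopen : IsOpen {s | dist (p.1 s) (p.1 s0) < ε / 2} :=
        isOpen_lt (p.1.continuous.dist continuous_const) continuous_const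
      have h3 : ({s | dist (p.1 s) (p.1 s0) < ε / 2} ∩ Ioo a b).Nonempty := by
        have hcl : s0 ∈ closure (Ioo a b) := by
          rw [closure_Ioo hab.ne]
          exact hs0
        exact mem_closure_iff.1 hcl _ hopen (by
          show dist (p.1 s0) (p.1 s0) < ε / 2
          rw [dist_self]
          exact half_pos hε)
      obtain ⟨u, v, huv, hsub⟩ := (hopen.inter isOpen_Ioo).exists_Ioo_subset h3
      have h5 : volume (Ioo u v) = 0 :=
        measure_mono_null (hsub.trans (inter_subset_inter_right _ Ioo_subset_Icc_self)) h2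
      rw [unitInterval.volume_Ioo, ENNReal.ofReal_eq_zero] at h5
      have h6 : (u : ℝ) < v := huv
      linarith
  · rw [Complex.analyticAt_iff_eventually_differentiableAt]
    have hcl : IsClosed (p.1 '' Icc a b) := (isClosed_Icc.isCompact.image hf).isClosed
    have hd := ct_diffOn (m := m) hf (E := Icc a b) isClosed_Icc (by
      rw [hmap _ isClosed_Icc.isOpen_compl.measurableSet, compl_inter_self, measure_empty, mul_zero])
    filter_upwards [hcl.isOpen_compl.mem_nhds hz] with w hw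
    exact hd.differentiableAt (hcl.isOpen_compl.mem_nhds hw)

end Pool.Agent.N481.PC
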