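import Pool.Agent.N481.PC.Slow

/-!
Potential estimates for a measure with growth `ph`.
-/

set_option autoImplicit false

namespace Pool.Agent.N481.PC

open Set MeasureTheory
open scoped ENNReal

variable {Λ : ℝ → ℝ} {ρ : ℝ} {X : Type*} [MeasurableSpace X] {m : Measure X}

theorem pow_five_eighths (k : ℕ) : ((1/2 : ℝ) ^ k) ^ (5/8 : ℝ) ≤ (2/3 : ℝ) ^ k := by
  rw [← Real.rpow_natCast, ← Real.rpow_mul (by norm_num), mul_comm, Real.rpow_mul (by norm_num), Real.rpow_natCast]
  refine pow_le_pow_left₀ (by positivity) ?_ k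
  have h1 : ((1/2 : ℝ) ^ (5/8 : ℝ)) ^ (8 : ℕ) ≤ (2/3 : ℝ) ^ (8 : ℕ) := by
    rw [← Real.rpow_natCast, ← Real.rpow_mul (by norm_num)]
    norm_num
  exact le_of_pow_le_pow_left₀ (by norm_num) (by norm_num) h1

theorem pow_quarter (k : ℕ) : ((1/2 : ℝ) ^ k) ^ (1/4 : ℝ) ≤ (6/7 : ℝ) ^ k := by
  rw [← Real.rpow_natCast, ← Real.rpow_mul (by norm_num), mul_comm, Real.rpow_mul (by norm_num), Real.rpow_natCast]
  refine pow_le_pow_left₀ (by positivity) ?_ k
  have h1 : ((1/2 : ℝ) ^ (1/4 : ℝ)) ^ (4 : ℕ) ≤ (6/7 : ℝ) ^ (4 : ℕ) := by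
    rw [← Real.rpow_natCast, ← Real.rpow_mul (by norm_num)]
    norm_num
  exact le_of_pow_le_pow_left₀ (by norm_num) (by norm_num) h1

theorem sum_geo {B q : ℝ} (hB : 0 ≤ B) (hq0 : 0 ≤ q) (hq1 : q < 1) :
    ∑' k : ℕ, ENNReal.ofReal (B * q ^ k) = ENNReal.ofReal (B * (1 - q)⁻¹) := by
  rw [← ENNReal.ofReal_tsum_of_nonneg (fun k => by positivity) ((summable_geometric_of_lt_one hq0 hq1).mul_left B),
    tsum_mul_left, tsum_geometric_of_lt_one hq0 hq1]

/-- the part close to the pole -/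
theorem near (hΛ : Slow Λ ρ) {C : ℝ} (hC : 0 ≤ C) {d : X → ℝ} (hd : Measurable d) (hd0 : ∀ s, 0 ≤ d s)
    {R : ℝ} (hR : 0 < R) (hRρ : R ≤ ρ)
    (hg : ∀ r, 0 < r → r ≤ R → m {s | d s ≤ r} ≤ ENNReal.ofReal (C * ph Λ r)) :
    ∫⁻ s in {s | d s ≤ R}, ENNReal.ofReal (1 / d s) ∂m ≤ ENNReal.ofReal (6 * C * (ph Λ R / R)) := by
  have hms : ∀ r : ℝ, MeasurableSet {s | d s ≤ r} := fun r => measurableSet_le hd measurable_const
  have hphR := ph_pos hΛ hR hRρ
  rw [← lintegral_indicator (hms R)]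
  calc ∫⁻ s, {s | d s ≤ R}.indicator (fun s => ENNReal.ofReal (1 / d s)) s ∂m ≤
        ∫⁻ s, ∑' k : ℕ, {s | d s ≤ R * (1/2) ^ k}.indicator (fun _ => ENNReal.ofReal (2 ^ (k + 1) / R)) s ∂m := by
        refine lintegral_mono fun s => ?_
        by_cases hs : d s ≤ R
        · rw [indicator_of_mem (by exact hs)]
          rcases (hd0 s).eq_or_lt with h0 | h0
          · rw [← h0]; simp
          · obtain ⟨k, hk1, hk2⟩ := exists_nat_pow_near (x := R / d s) (y := (2 : ℝ)) ((one_le_div h0).2 hs)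
              (by norm_num)
            refine le_trans ?_ (ENNReal.le_tsum k)
            rw [indicator_of_mem (by
              show d s ≤ R * (1/2) ^ k
              rw [le_div_iff₀ h0] at hk1
              rw [one_div, inv_pow, ← div_eq_mul_inv, le_div_iff₀ (by positivity)]
              linarith)]
            refine ENNReal.ofReal_le_ofReal ?_
            rw [div_le_div_iff₀ h0 hR]
            rw [div_lt_iff₀ h0] at hk2
            linarith
        · rw [indicator_of_notMem (by exact hs)]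
          exact zero_le
    _ = ∑' k : ℕ, ENNReal.ofReal (2 ^ (k + 1) / R) * m {s | d s ≤ R * (1/2) ^ k} := by
        rw [lintegral_tsum fun k => (measurable_const.indicator (hms _)).aemeasurable]
        congr 1
        funext k
        rw [lintegral_indicator (hms _), lintegral_const, Measure.restrict_apply_univ]
    _ ≤ ∑' k : ℕ, ENNReal.ofReal (2 * C * (ph Λ R / R) * (2/3) ^ k) := by
        refine ENNReal.tsum_le_tsum fun k => ?_
        have hk : (0 : ℝ) < (1/2) ^ k := by positivity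
        have hk1 : (1/2 : ℝ) ^ k ≤ 1 := pow_le_one₀ (by norm_num) (by norm_num)
        have h1 := hg (R * (1/2) ^ k) (by positivity) (by nlinarith)
        refine (mul_le_mul_right h1 _).trans ?_
        rw [← ENNReal.ofReal_mul (by positivity)]
        refine ENNReal.ofReal_le_ofReal ?_
        have h2 := ph_down hΛ (show 0 < R * (1/2) ^ k by positivity) (by nlinarith) hRρ
        rw [mul_div_cancel_left₀ _ hR.ne'] at h2
        have h3 := pow_five_eighths k
        have e1 : ((1/2 : ℝ) ^ k) ^ (13/8 : ℝ) = ((1/2 : ℝ) ^ k) ^ (5/8 : ℝ) * (1/2 : ℝ) ^ k := by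
          rw [show (13/8 : ℝ) = 5/8 + 1 by norm_num, Real.rpow_add hk, Real.rpow_one]
        calc 2 ^ (k + 1) / R * (C * ph Λ (R * (1/2) ^ k)) ≤
              2 ^ (k + 1) / R * (C * (((1/2 : ℝ) ^ k) ^ (13/8 : ℝ) * ph Λ R)) := by gcongr
          _ = 2 * C * (ph Λ R / R) * ((1/2 : ℝ) ^ k) ^ (5/8 : ℝ) * ((2 : ℝ) ^ k * (1/2 : ℝ) ^ k) := by
              rw [e1]; ring
          _ = 2 * C * (ph Λ R / R) * ((1/2 : ℝ) ^ k) ^ (5/8 : ℝ) := by
              rw [← mul_pow]; norm_num
          _ ≤ 2 * C * (ph Λ R / R) * (2/3) ^ k := by gcongr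
    _ = ENNReal.ofReal (6 * C * (ph Λ R / R)) := by
        rw [sum_geo (by positivity) (by norm_num) (by norm_num)]
        congr 1
        norm_num
        ring

/-- the far part -/
theorem far (hΛ : Slow Λ ρ) {C : ℝ} (hC : 0 ≤ C) {d : X → ℝ} (hd : Measurable d)
    {r R : ℝ} (hr : 0 < r) (hrR : r ≤ R) (hRρ : R ≤ ρ)
    (hg : ∀ r, 0 < r → r ≤ R → m {s | d s ≤ r} ≤ ENNReal.ofReal (C * ph Λ r)) :
    ∫⁻ s in {s | r < d s ∧ d s ≤ R}, ENNReal.ofReal (1 / d s ^ 2) ∂m ≤ ENNReal.ofReal (28 * C * (ph Λ r / r ^ 2)) := by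
  have hms : ∀ r : ℝ, MeasurableSet {s | d s ≤ r} := fun r => measurableSet_le hd measurable_const
  have hms2 : MeasurableSet {s | r < d s ∧ d s ≤ R} := (measurableSet_lt measurable_const hd).inter (hms R)
  have hph := ph_pos hΛ hr (hrR.trans hRρ)
  rw [← lintegral_indicator hms2]
  calc ∫⁻ s, {s | r < d s ∧ d s ≤ R}.indicator (fun s => ENNReal.ofReal (1 / d s ^ 2)) s ∂m ≤
        ∫⁻ s, ∑' k : ℕ, {s | d s ≤ min (r * 2 ^ (k + 1)) R}.indicator
          (fun _ => ENNReal.ofReal (1 / (r * 2 ^ k) ^ 2)) s ∂m := by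
        refine lintegral_mono fun s => ?_
        by_cases hs : r < d s ∧ d s ≤ R
        · rw [indicator_of_mem (by exact hs)]
          have h0 : 0 < d s := hr.trans hs.1
          obtain ⟨k, hk1, hk2⟩ := exists_nat_pow_near (x := d s / r) (y := (2 : ℝ)) ((one_le_div hr).2 hs.1.le)
              (by norm_num)
          refine le_trans ?_ (ENNReal.le_tsum k)
          rw [le_div_iff₀ hr] at hk1
          rw [div_lt_iff₀ hr] at hk2
          rw [indicator_of_mem (by
              show d s ≤ min (r * 2 ^ (k + 1)) R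
              exact le_min (by linarith) hs.2)]
          refine ENNReal.ofReal_le_ofReal ?_
          refine one_div_le_one_div_of_le (by positivity) ?_
          exact pow_le_pow_left₀ (by positivity) (by linarith) 2
        · rw [indicator_of_notMem (by exact hs)]
          exact zero_le
    _ = ∑' k : ℕ, ENNReal.ofReal (1 / (r * 2 ^ k) ^ 2) * m {s | d s ≤ min (r * 2 ^ (k + 1)) R} := by
        rw [lintegral_tsum fun k => (measurable_const.indicator (hms _)).aemeasurable]
        congr 1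
        funext k
        rw [lintegral_indicator (hms _), lintegral_const, Measure.restrict_apply_univ]
    _ ≤ ∑' k : ℕ, ENNReal.ofReal (4 * C * (ph Λ r / r ^ 2) * (6/7) ^ k) := by
        refine ENNReal.tsum_le_tsum fun k => ?_
        have h2k : (1 : ℝ) ≤ 2 ^ (k + 1) := one_le_pow₀ (by norm_num)
        have hmin : 0 < min (r * 2 ^ (k + 1)) R := lt_min (by positivity) (hr.trans_le hrR)
        have hrm : r ≤ min (r * 2 ^ (k + 1)) R := le_min (by nlinarith) hrR
        have h1 := hg _ hmin (min_le_right _ _)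
        refine (mul_le_mul_right h1 _).trans ?_
        rw [← ENNReal.ofReal_mul (by positivity)]
        refine ENNReal.ofReal_le_ofReal ?_
        have h2 := ph_up hΛ hr hrm ((min_le_right _ _).trans hRρ)
        have h3 : min (r * 2 ^ (k + 1)) R / r ≤ 2 ^ (k + 1) := by
          rw [div_le_iff₀ hr]
          refine (min_le_left _ _).trans (le_of_eq (by ring))
        have h4 : (min (r * 2 ^ (k + 1)) R / r) ^ (7/4 : ℝ) ≤ ((2 : ℝ) ^ (k + 1)) ^ (7/4 : ℝ) :=
          Real.rpow_le_rpow (by positivity) h3 (by norm_num)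
        have h5 : ((2 : ℝ) ^ (k + 1)) ^ (7/4 : ℝ) ≤ 4 * ((2 : ℝ) ^ k) ^ (7/4 : ℝ) := by
          rw [pow_succ, Real.mul_rpow (by positivity) (by norm_num), mul_comm]
          refine mul_le_mul_of_nonneg_right ?_ (by positivity)
          calc (2 : ℝ) ^ (7/4 : ℝ) ≤ 2 ^ (2 : ℝ) := Real.rpow_le_rpow_of_exponent_le (by norm_num) (by norm_num)
            _ = 4 := by norm_num
        have h6 := pow_quarter k
        have e1 : ((2 : ℝ) ^ k) ^ (7/4 : ℝ) = ((2 : ℝ) ^ k) ^ 2 * ((1/2 : ℝ) ^ k) ^ (1/4 : ℝ) := by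
          have h7 : (0 : ℝ) < 2 ^ k := by positivity
          have e2 : (1/2 : ℝ) ^ k = ((2 : ℝ) ^ k)⁻¹ := by rw [one_div, inv_pow]
          obtain ⟨y, hy⟩ : ∃ y : ℝ, y = 2 ^ k := ⟨_, rfl⟩
          rw [e2, ← hy]
          rw [← hy] at h7
          rw [Real.inv_rpow h7.le, ← Real.rpow_neg h7.le, ← Real.rpow_natCast y 2, ← Real.rpow_add h7]
          congr 1
          norm_num
        calc 1 / (r * 2 ^ k) ^ 2 * (C * ph Λ (min (r * 2 ^ (k + 1)) R)) ≤
              1 / (r * 2 ^ k) ^ 2 * (C * ((4 * ((2 : ℝ) ^ k) ^ (7/4 : ℝ)) * ph Λ r)) := by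
              refine mul_le_mul_of_nonneg_left (mul_le_mul_of_nonneg_left ?_ hC) (by positivity)
              exact h2.trans (mul_le_mul_of_nonneg_right (h4.trans h5) hph.le)
          _ = 4 * C * (ph Λ r / r ^ 2) * ((1/2 : ℝ) ^ k) ^ (1/4 : ℝ) := by
              rw [e1]
              field_simp
          _ ≤ 4 * C * (ph Λ r / r ^ 2) * (6/7) ^ k := by gcongr
    _ = ENNReal.ofReal (28 * C * (ph Λ r / r ^ 2)) := by
        rw [sum_geo (by positivity) (by norm_num) (by norm_num)]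
        congr 1
        norm_num
        ring

end Pool.Agent.N481.PC
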