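import Mathlib

/-!
Slowly varying factors: `Λ` is at least one, does not increase, and `Λ s ≤ (r / s) ^ (1/8) Λ r` for small
`s ≤ r`. The two examples are `(log (1/r)) ^ (1/8)` and `(log log (1/r)) ^ (1/8)`.
-/

set_option autoImplicit false

namespace Pool.Agent.N481.PC

structure Slow (Λ : ℝ → ℝ) (ρ : ℝ) : Prop where
  pos : 0 < ρ
  le1 : ρ ≤ 1
  one : ∀ r, 0 < r → r ≤ ρ → 1 ≤ Λ r
  anti : ∀ s r, 0 < s → s ≤ r → r ≤ ρ → Λ r ≤ Λ s
  slow : ∀ s r, 0 < s → s ≤ r → r ≤ ρ → Λ s ≤ (r / s) ^ (1/8 : ℝ) * Λ r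

/-- the gauge -/
noncomputable def ph (Λ : ℝ → ℝ) (r : ℝ) : ℝ := r ^ (7/4 : ℝ) * Λ r

/-- the modulus -/
noncomputable def om (Λ : ℝ → ℝ) (r : ℝ) : ℝ := r ^ (3/4 : ℝ) * Λ r

variable {Λ : ℝ → ℝ} {ρ : ℝ}

theorem ph_eq {r : ℝ} (hr : 0 < r) : ph Λ r = r * om Λ r := by
  unfold ph om
  rw [← mul_assoc]
  congr 1
  rw [show (7/4 : ℝ) = 1 + 3/4 by norm_num, Real.rpow_add hr, Real.rpow_one]

theorem om_eq {r : ℝ} (hr : 0 < r) : om Λ r = ph Λ r / r := by
  rw [ph_eq hr, mul_div_cancel_left₀ _ hr.ne']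

theorem om_pos (h : Slow Λ ρ) {r : ℝ} (hr : 0 < r) (hρ : r ≤ ρ) : 0 < om Λ r := by
  have := h.one r hr hρ
  unfold om
  positivity

theorem ph_pos (h : Slow Λ ρ) {r : ℝ} (hr : 0 < r) (hρ : r ≤ ρ) : 0 < ph Λ r := by
  have := h.one r hr hρ
  unfold ph
  positivity

/-- growth upwards -/
theorem ph_up (h : Slow Λ ρ) {r s : ℝ} (hr : 0 < r) (hrs : r ≤ s) (hs : s ≤ ρ) :
    ph Λ s ≤ (s / r) ^ (7/4 : ℝ) * ph Λ r := by
  have hs0 : 0 < s := hr.trans_le hrs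
  unfold ph
  rw [Real.div_rpow hs0.le hr.le, ← mul_assoc, div_mul_cancel₀ _ (by positivity)]
  exact mul_le_mul_of_nonneg_left (h.anti r s hr hrs hs) (by positivity)

theorem ph_down (h : Slow Λ ρ) {s r : ℝ} (hs : 0 < s) (hsr : s ≤ r) (hr : r ≤ ρ) :
    ph Λ s ≤ (s / r) ^ (13/8 : ℝ) * ph Λ r := by
  have hr0 : 0 < r := hs.trans_le hsr
  have h1 := h.slow s r hs hsr hr
  have h2 : 0 ≤ Λ r := by linarith [h.one r hr0 hr]
  unfold ph
  calc s ^ (7/4 : ℝ) * Λ s ≤ s ^ (7/4 : ℝ) * ((r / s) ^ (1/8 : ℝ) * Λ r) :=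
        mul_le_mul_of_nonneg_left h1 (by positivity)
    _ = (s / r) ^ (13/8 : ℝ) * (r ^ (7/4 : ℝ) * Λ r) := by
        rw [Real.div_rpow hs.le hr0.le, Real.div_rpow hr0.le hs.le]
        have e1 : s ^ (7/4 : ℝ) = s ^ (13/8 : ℝ) * s ^ (1/8 : ℝ) := by
          rw [← Real.rpow_add hs]; norm_num
        have e2 : r ^ (7/4 : ℝ) = r ^ (13/8 : ℝ) * r ^ (1/8 : ℝ) := by
          rw [← Real.rpow_add hr0]; norm_num
        rw [e1, e2]
        have h3 : s ^ (1/8 : ℝ) ≠ 0 := by positivity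
        have h4 : r ^ (13/8 : ℝ) ≠ 0 := by positivity
        field_simp

theorem ph_mono (h : Slow Λ ρ) {s r : ℝ} (hs : 0 < s) (hsr : s ≤ r) (hr : r ≤ ρ) :
    ph Λ s ≤ ph Λ r := by
  have hr0 : 0 < r := hs.trans_le hsr
  refine (ph_down h hs hsr hr).trans ?_
  have h1 : (s / r) ^ (13/8 : ℝ) ≤ 1 :=
    Real.rpow_le_one (by positivity) ((div_le_one hr0).2 hsr) (by norm_num)
  have h2 := (ph_pos h hr0 hr).le
  nlinarith

theorem om_mono (h : Slow Λ ρ) {s r : ℝ} (hs : 0 < s) (hsr : s ≤ r) (hr : r ≤ ρ) :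
    om Λ s ≤ om Λ r := by
  have hr0 : 0 < r := hs.trans_le hsr
  rw [om_eq hs, om_eq hr0, div_le_iff₀ hs]
  refine (ph_down h hs hsr hr).trans ?_
  have h1 : (s / r) ^ (13/8 : ℝ) ≤ s / r := by
    have := Real.rpow_le_rpow_of_exponent_ge (x := s / r) (by positivity)
      ((div_le_one hr0).2 hsr) (by norm_num : (1 : ℝ) ≤ 13/8)
    rwa [Real.rpow_one] at this
  calc (s / r) ^ (13/8 : ℝ) * ph Λ r ≤ s / r * ph Λ r :=
        mul_le_mul_of_nonneg_right h1 (ph_pos h hr0 hr).le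
    _ = ph Λ r / r * s := by ring

theorem ph_two (h : Slow Λ ρ) {r : ℝ} (hr : 0 < r) (h2 : 2 * r ≤ ρ) : ph Λ (2 * r) ≤ 4 * ph Λ r := by
  have h1 := ph_up h hr (by linarith : r ≤ 2 * r) h2
  have e : 2 * r / r = 2 := by field_simp
  rw [e] at h1
  refine h1.trans (mul_le_mul_of_nonneg_right ?_ (ph_pos h hr (by linarith)).le)
  calc (2 : ℝ) ^ (7/4 : ℝ) ≤ 2 ^ (2 : ℝ) := Real.rpow_le_rpow_of_exponent_le (by norm_num) (by norm_num)
    _ = 4 := by norm_num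

theorem om_two (h : Slow Λ ρ) {r : ℝ} (hr : 0 < r) (h2 : 2 * r ≤ ρ) : om Λ (2 * r) ≤ 2 * om Λ r := by
  rw [om_eq (by linarith), om_eq hr, div_le_iff₀ (by linarith)]
  have := ph_two h hr h2
  have e : 2 * (ph Λ r / r) * (2 * r) = 4 * ph Λ r := by field_simp; ring
  linarith

/-- the modulus is bounded by a power -/
theorem om_le (h : Slow Λ ρ) {s : ℝ} (hs : 0 < s) (hρ : s ≤ ρ) :
    om Λ s ≤ s ^ (5/8 : ℝ) * (ρ ^ (1/8 : ℝ) * Λ ρ) := by
  have h0 := h.pos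
  have h1 := h.slow s ρ hs hρ le_rfl
  unfold om
  calc s ^ (3/4 : ℝ) * Λ s ≤ s ^ (3/4 : ℝ) * ((ρ / s) ^ (1/8 : ℝ) * Λ ρ) :=
        mul_le_mul_of_nonneg_left h1 (by positivity)
    _ = _ := by
        rw [Real.div_rpow h0.le hs.le]
        have e1 : s ^ (3/4 : ℝ) = s ^ (5/8 : ℝ) * s ^ (1/8 : ℝ) := by
          rw [← Real.rpow_add hs]; norm_num
        rw [e1]
        have h3 : s ^ (1/8 : ℝ) ≠ 0 := by positivity
        field_simp

theorem om_small (h : Slow Λ ρ) {τ : ℝ} (hτ : 0 < τ) : ∃ δ : ℝ, 0 < δ ∧ δ ≤ ρ ∧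
    ∀ s, 0 < s → s ≤ δ → om Λ s ≤ τ := by
  have h0 := h.pos
  have h1 := h.one ρ h0 le_rfl
  obtain ⟨A, hA⟩ : ∃ A, A = ρ ^ (1/8 : ℝ) * Λ ρ := ⟨_, rfl⟩
  have hA0 : 0 < A := by rw [hA]; positivity
  refine ⟨min ρ ((τ / A) ^ (8/5 : ℝ)), lt_min h0 (by positivity), min_le_left _ _, fun s hs hs1 => ?_⟩
  refine (om_le h hs (hs1.trans (min_le_left _ _))).trans ?_
  rw [← hA]
  have h2 : s ^ (5/8 : ℝ) ≤ τ / A := by
    calc s ^ (5/8 : ℝ) ≤ ((τ / A) ^ (8/5 : ℝ)) ^ (5/8 : ℝ) :=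
          Real.rpow_le_rpow hs.le (hs1.trans (min_le_right _ _)) (by norm_num)
      _ = τ / A := by
          rw [← Real.rpow_mul (by positivity)]
          norm_num
  calc s ^ (5/8 : ℝ) * A ≤ τ / A * A := mul_le_mul_of_nonneg_right h2 hA0.le
    _ = τ := by field_simp

theorem ph_small (h : Slow Λ ρ) {τ : ℝ} (hτ : 0 < τ) : ∃ δ : ℝ, 0 < δ ∧ δ ≤ ρ ∧
    ∀ s, 0 < s → s ≤ δ → ph Λ s ≤ τ := by
  obtain ⟨δ, hδ, hδρ, h1⟩ := om_small h hτ
  refine ⟨δ, hδ, hδρ, fun s hs hs1 => ?_⟩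
  rw [ph_eq hs]
  have h2 : s ≤ 1 := hs1.trans (hδρ.trans h.le1)
  have h3 := om_pos h hs (hs1.trans hδρ)
  have h4 := h1 s hs hs1
  nlinarith

/-! ### The two examples -/

noncomputable def lam1 (r : ℝ) : ℝ := Real.log (1 / r) ^ (1/8 : ℝ)

noncomputable def lam2 (r : ℝ) : ℝ := Real.log (Real.log (1 / r)) ^ (1/8 : ℝ)

theorem slow_aux {x y : ℝ} (hy : 1 ≤ y) (hx : 0 < x) {u : ℝ} (hu : 1 ≤ u) (h : x ≤ y * u) :
    x ^ (1/8 : ℝ) ≤ u ^ (1/8 : ℝ) * y ^ (1/8 : ℝ) := by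
  rw [← Real.mul_rpow (by linarith) (by linarith), mul_comm u y]
  exact Real.rpow_le_rpow hx.le h (by norm_num)

theorem slow1 : Slow lam1 (Real.exp (-1)) := by
  have key : ∀ r : ℝ, 0 < r → r ≤ Real.exp (-1) → 1 ≤ Real.log (1 / r) := fun r hr h => by
    have := Real.log_le_log hr h
    rw [Real.log_exp] at this
    rw [one_div, Real.log_inv]
    linarith
  refine ⟨Real.exp_pos _, Real.exp_le_one_iff.2 (by norm_num), fun r hr h => ?_, fun s r hs hsr hr => ?_,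
    fun s r hs hsr hr => ?_⟩
  · exact Real.one_le_rpow (key r hr h) (by norm_num)
  · have h1 := key r (hs.trans_le hsr) hr
    exact Real.rpow_le_rpow (by linarith) (Real.log_le_log (by have := hs.trans_le hsr; positivity)
      (one_div_le_one_div_of_le hs hsr)) (by norm_num)
  · have hr0 := hs.trans_le hsr
    have h1 := key r hr0 hr
    have h2 := key s hs (hsr.trans hr)
    have hu : 1 ≤ r / s := (one_le_div hs).2 hsr
    refine slow_aux h1 (by linarith) hu ?_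
    have h3 : Real.log (1 / s) = Real.log (1 / r) + Real.log (r / s) := by
      rw [← Real.log_mul (by positivity) (by positivity)]
      congr 1
      field_simp
    have h4 : Real.log (r / s) ≤ r / s - 1 := Real.log_le_sub_one_of_pos (by positivity)
    rw [h3]
    nlinarith

theorem slow2 : Slow lam2 (Real.exp (-Real.exp 1)) := by
  have key : ∀ r : ℝ, 0 < r → r ≤ Real.exp (-Real.exp 1) →
      Real.exp 1 ≤ Real.log (1 / r) ∧ 1 ≤ Real.log (Real.log (1 / r)) := fun r hr h => by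
    have h1 : Real.exp 1 ≤ Real.log (1 / r) := by
      rw [one_div, Real.log_inv, le_neg]
      have := Real.log_le_log hr h
      rwa [Real.log_exp] at this
    refine ⟨h1, ?_⟩
    rw [Real.le_log_iff_exp_le (lt_of_lt_of_le (Real.exp_pos _) h1)]
    exact h1
  have he : (1 : ℝ) ≤ Real.exp 1 := Real.one_le_exp (by norm_num)
  refine ⟨Real.exp_pos _, Real.exp_le_one_iff.2 (by linarith), fun r hr h => ?_,
    fun s r hs hsr hr => ?_, fun s r hs hsr hr => ?_⟩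
  · exact Real.one_le_rpow (key r hr h).2 (by norm_num)
  · have hr0 := hs.trans_le hsr
    obtain ⟨h1, h2⟩ := key r hr0 hr
    exact Real.rpow_le_rpow (by linarith) (Real.log_le_log (by linarith)
      (Real.log_le_log (by positivity) (one_div_le_one_div_of_le hs hsr))) (by norm_num)
  · have hr0 := hs.trans_le hsr
    obtain ⟨h1, h2⟩ := key r hr0 hr
    obtain ⟨h1', h2'⟩ := key s hs (hsr.trans hr)
    have hu : 1 ≤ r / s := (one_le_div hs).2 hsr
    refine slow_aux h2 (by linarith) hu ?_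
    obtain ⟨y, hy⟩ : ∃ y, y = Real.log (1 / r) := ⟨_, rfl⟩
    have h3 : Real.log (1 / s) = y + Real.log (r / s) := by
      rw [hy, ← Real.log_mul (by positivity) (by positivity)]
      congr 1
      field_simp
    rw [← hy] at h1 h2 ⊢
    rw [h3]
    have h4 : Real.log (r / s) ≤ r / s - 1 := Real.log_le_sub_one_of_pos (by positivity)
    have h5 : 0 ≤ Real.log (r / s) := Real.log_nonneg hu
    have hy0 : 1 ≤ y := he.trans h1
    have h6 : Real.log (y + Real.log (r / s)) ≤ Real.log y + Real.log (r / s) := by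
      have e1 : y + Real.log (r / s) = y * (1 + Real.log (r / s) / y) := by field_simp
      rw [e1, Real.log_mul (by positivity) (by positivity)]
      have h7 : Real.log (1 + Real.log (r / s) / y) ≤ Real.log (r / s) / y := by
        have := Real.log_le_sub_one_of_pos (show 0 < 1 + Real.log (r / s) / y by positivity)
        linarith
      have h8 : Real.log (r / s) / y ≤ Real.log (r / s) := div_le_self h5 hy0
      linarith
    nlinarith

end Pool.Agent.N481.PC
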